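import Mathlib

set_option autoImplicit false

namespace Pool.Agent.Results.MP_60922f_co.FourClasses

open Filter

/-- `2 ^ h` is the exact power of two dividing `m ^ 2 - 1`. -/
def HH (m : ℤ) (h : ℕ) : Prop := (2 : ℤ) ^ h ∣ m ^ 2 - 1 ∧ ¬ (2 : ℤ) ^ (h + 1) ∣ m ^ 2 - 1

theorem HH_unique {m : ℤ} {h k : ℕ} (h1 : HH m h) (h2 : HH m k) : h = k := by
  rcases lt_trichotomy h k with hlt | heq | hgt
  · exact absurd (dvd_trans (pow_dvd_pow 2 hlt) h2.1) h1.2
  · exact heq
  · exact absurd (dvd_trans (pow_dvd_pow 2 hgt) h1.1) h2.2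

theorem HH_congr {m m' : ℤ} {h : ℕ} (hm : Odd m) (hm' : Odd m') (hh : HH m h)
    (hd : (2 : ℤ) ^ h ∣ m' - m) : HH m' h := by
  have h2 : (2 : ℤ) ∣ m' + m := (hm'.add_odd hm).two_dvd
  have h3 : (2 : ℤ) ^ (h + 1) ∣ (m' - m) * (m' + m) := by
    rw [pow_succ]
    exact mul_dvd_mul hd h2
  have e : m' ^ 2 - 1 = (m ^ 2 - 1) + (m' - m) * (m' + m) := by ring
  constructor
  · rw [e]
    exact dvd_add hh.1 (dvd_trans (pow_dvd_pow 2 (Nat.le_succ h)) h3)
  · rw [e]
    intro hc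
    exact hh.2 ((dvd_add_left h3).1 hc)

theorem odd_sq_add_one {m : ℤ} (hm : Odd m) : ∃ q : ℤ, Odd q ∧ m ^ 2 + 1 = 2 * q := by
  obtain ⟨t, rfl⟩ := hm
  exact ⟨2 * (t ^ 2 + t) + 1, ⟨t ^ 2 + t, rfl⟩, by ring⟩

theorem pow_dvd_of_mul_odd {x q : ℤ} {k : ℕ} (hq : Odd q) (h : (2 : ℤ) ^ k ∣ x * q) :
    (2 : ℤ) ^ k ∣ x := by
  have hc : IsCoprime ((2 : ℤ) ^ k) q := by
    apply IsCoprime.pow_left
    exact (Int.isCoprime_iff_gcd_eq_one.2 (by
      have := Int.odd_iff.1 hq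
      have h2 : Int.gcd 2 q = 1 := by
        rw [Int.gcd_comm]
        exact Int.isCoprime_iff_gcd_eq_one.1 (Int.isCoprime_two_right.2 hq)
      exact h2))
  exact hc.dvd_of_dvd_mul_right h

theorem HH_sq {m : ℤ} {h : ℕ} (hm : Odd m) (hh : HH m h) : HH (m * m) (h + 1) := by
  obtain ⟨q, hq, e⟩ := odd_sq_add_one hm
  have e2 : (m * m) ^ 2 - 1 = (m ^ 2 - 1) * q * 2 := by
    have : (m * m) ^ 2 - 1 = (m ^ 2 - 1) * (m ^ 2 + 1) := by ring
    rw [this, e]; ring
  constructor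
  · rw [e2, pow_succ]
    exact mul_dvd_mul (Dvd.dvd.mul_right hh.1 q) (dvd_refl 2)
  · rw [e2, pow_succ]
    intro hc
    have h3 : (2 : ℤ) ^ (h + 1) ∣ (m ^ 2 - 1) * q :=
      (mul_dvd_mul_iff_right (by norm_num : (2 : ℤ) ≠ 0)).1 hc
    exact hh.2 (pow_dvd_of_mul_odd hq h3)

theorem eight_dvd {m : ℤ} (hm : Odd m) : (2 : ℤ) ^ 3 ∣ m ^ 2 - 1 := by
  have := Int.eight_dvd_sq_sub_one_of_odd hm
  norm_num
  exact this

theorem HH_three {m : ℤ} {h : ℕ} (hm : Odd m) (hh : HH m h) : 3 ≤ h := by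
  by_contra hc
  exact hh.2 (dvd_trans (pow_dvd_pow 2 (by omega)) (eight_dvd hm))

/-- `m` is at exact 2-adic distance `2 ^ (-k)` from the sign `s`. -/
def DD (m s : ℤ) (k : ℕ) : Prop := (2 : ℤ) ^ k ∣ m - s ∧ ¬ (2 : ℤ) ^ (k + 1) ∣ m - s

theorem DD_to_HH {m s : ℤ} {k : ℕ} (hs : s = 1 ∨ s = -1) (hk : 2 ≤ k) (hd : DD m s k) :
    HH m (k + 1) := by
  obtain ⟨⟨t, ht⟩, hn⟩ := hd
  have hto : Odd t := by
    by_contra hc
    rw [Int.not_odd_iff_even] at hc
    obtain ⟨r, hr⟩ := hc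
    apply hn
    refine ⟨r, ?_⟩
    rw [ht, hr, pow_succ]; ring
  obtain ⟨j, rfl⟩ : ∃ j, k = j + 2 := ⟨k - 2, by omega⟩
  have hs2 : s ^ 2 = 1 := by rcases hs with rfl | rfl <;> norm_num
  have hso : Odd s := by rcases hs with rfl | rfl <;> decide
  have e : m ^ 2 - 1 = (t * (s + 2 ^ (j + 1) * t)) * 2 ^ (j + 2 + 1) := by
    have : m = s + 2 ^ (j + 2) * t := by linarith
    rw [this]
    have : (s + 2 ^ (j + 2) * t) ^ 2 - 1 = s ^ 2 - 1 + (2 * s * (2 ^ (j + 2) * t) + (2 ^ (j + 2) * t) ^ 2) := by ring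
    rw [this, hs2]; ring
  have ho : Odd (t * (s + 2 ^ (j + 1) * t)) := by
    apply hto.mul
    apply hso.add_even
    rw [pow_succ]
    exact ⟨2 ^ j * t, by ring⟩
  constructor
  · rw [e]; exact Dvd.intro_left _ rfl
  · rw [e, pow_succ _ (j + 2 + 1)]
    intro hc
    rw [mul_comm (2 ^ (j + 2 + 1) : ℤ) 2] at hc
    have := (mul_dvd_mul_iff_right (by positivity : (2 : ℤ) ^ (j + 2 + 1) ≠ 0)).1 hc
    exact (Int.not_even_iff_odd.2 ho) (even_iff_two_dvd.2 this)

theorem HH_to_DD {m s : ℤ} {h : ℕ} (hs : s = 1 ∨ s = -1) (h4 : (4 : ℤ) ∣ m - s) (hh : HH m h)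
    (h1 : 1 ≤ h) : DD m s (h - 1) := by
  obtain ⟨j, rfl⟩ : ∃ j, h = j + 1 := ⟨h - 1, by omega⟩
  obtain ⟨t, ht⟩ := h4
  have hs2 : s ^ 2 = 1 := by rcases hs with rfl | rfl <;> norm_num
  have hso : Odd s := by rcases hs with rfl | rfl <;> decide
  have e : m ^ 2 - 1 = (m - s) * (s + 2 * t) * 2 := by
    have : m = s + 4 * t := by linarith
    rw [this]
    have : (s + 4 * t) ^ 2 - 1 = s ^ 2 - 1 + (8 * s * t + 16 * t ^ 2) := by ring
    rw [this, hs2]; ring
  have ho : Odd (s + 2 * t) := hso.add_even ⟨t, by ring⟩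
  simp only [Nat.add_sub_cancel]
  constructor
  · have := hh.1
    rw [e, pow_succ] at this
    exact pow_dvd_of_mul_odd ho ((mul_dvd_mul_iff_right (by norm_num : (2 : ℤ) ≠ 0)).1 this)
  · intro hc
    apply hh.2
    rw [e, pow_succ]
    exact mul_dvd_mul (Dvd.dvd.mul_right hc _) (dvd_refl 2)

theorem DD_mul {m m' s s' : ℤ} {k : ℕ} (hs' : s' = 1 ∨ s' = -1)
    (hd : DD m s k) (hd' : (2 : ℤ) ^ (k + 1) ∣ m' - s') : DD (m * m') (s * s') k := by
  have hso : Odd s' := by rcases hs' with rfl | rfl <;> decide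
  have e : m * m' - s * s' = (m - s) * s' + m * (m' - s') := by ring
  have h2 : (2 : ℤ) ^ (k + 1) ∣ m * (m' - s') := Dvd.dvd.mul_left hd' m
  constructor
  · rw [e]
    exact dvd_add (Dvd.dvd.mul_right hd.1 _) (dvd_trans (pow_dvd_pow 2 (Nat.le_succ k)) h2)
  · rw [e]
    intro hc
    exact hd.2 (pow_dvd_of_mul_odd hso ((dvd_add_left h2).1 hc))

theorem DD_half {m m' s x : ℤ} {k : ℕ} (hx : m + m' = 2 * x) (hd : DD m s (k + 1))
    (hd' : (2 : ℤ) ^ (k + 2) ∣ m' - s) : DD x s k := by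
  have e : (x - s) * 2 = (m - s) + (m' - s) := by linarith
  constructor
  · have : (2 : ℤ) ^ (k + 1) ∣ (x - s) * 2 := by
      rw [e]
      exact dvd_add hd.1 (dvd_trans (pow_dvd_pow 2 (by omega)) hd')
    rw [pow_succ] at this
    exact (mul_dvd_mul_iff_right (by norm_num : (2 : ℤ) ≠ 0)).1 this
  · intro hc
    have h1 : (2 : ℤ) ^ (k + 1 + 1) ∣ (x - s) * 2 := by
      rw [pow_succ]
      exact mul_dvd_mul hc (dvd_refl 2)
    rw [e] at h1
    exact hd.2 ((dvd_add_left hd').1 h1)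


/-- The exponent of two in `n`. -/
def vv (n : ℕ) : ℕ := padicValNat 2 n

/-- The odd part of `n`. -/
def oddPart (n : ℕ) : ℕ := n / 2 ^ vv n

/-- The exponent of two in `m ^ 2 - 1`, where `m` is the odd part of `n`. -/
def hh (n : ℕ) : ℕ := padicValNat 2 (oddPart n ^ 2 - 1)

theorem vv_two_pow_mul (V : ℕ) {m : ℕ} (hm : Odd m) : vv (2 ^ V * m) = V := by
  have hm0 : m ≠ 0 := by rintro rfl; exact absurd hm (by decide)
  unfold vv
  rw [padicValNat.mul (by positivity) hm0, padicValNat.prime_pow,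
    padicValNat.eq_zero_of_not_dvd (by
      intro h
      exact (Nat.not_even_iff_odd.2 hm) (even_iff_two_dvd.2 h))]
  rfl

theorem oddPart_two_pow_mul (V : ℕ) {m : ℕ} (hm : Odd m) : oddPart (2 ^ V * m) = m := by
  unfold oddPart
  rw [vv_two_pow_mul V hm]
  exact Nat.mul_div_cancel_left m (by positivity)

theorem eq_mul (n : ℕ) : n = 2 ^ vv n * oddPart n :=
  (Nat.mul_div_cancel' pow_padicValNat_dvd).symm

theorem odd_oddPart {n : ℕ} (hn : n ≠ 0) : Odd (oddPart n) := by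
  by_contra hc
  rw [Nat.not_odd_iff_even] at hc
  obtain ⟨r, hr⟩ := hc
  apply pow_succ_padicValNat_not_dvd (p := 2) hn
  refine ⟨r, ?_⟩
  have := eq_mul n
  unfold vv at this
  rw [hr] at this
  rw [pow_succ]
  calc n = 2 ^ padicValNat 2 n * (r + r) := this
    _ = _ := by ring

theorem HH_padic {m : ℕ} (hm : 2 ≤ m) : HH (m : ℤ) (padicValNat 2 (m ^ 2 - 1)) := by
  have h1 : 1 ≤ m ^ 2 := Nat.one_le_pow _ _ (by omega)
  have h2 : m ^ 2 - 1 ≠ 0 := by
    have : 2 ^ 2 ≤ m ^ 2 := Nat.pow_le_pow_left hm 2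
    omega
  have e : ((m ^ 2 - 1 : ℕ) : ℤ) = (m : ℤ) ^ 2 - 1 := by
    push_cast [Nat.cast_sub h1]; rfl
  constructor
  · rw [← e]
    exact_mod_cast (pow_padicValNat_dvd : 2 ^ padicValNat 2 (m ^ 2 - 1) ∣ m ^ 2 - 1)
  · rw [← e]
    intro hc
    exact pow_succ_padicValNat_not_dvd (p := 2) h2 (by exact_mod_cast hc)

theorem HH_ge_two {m : ℕ} {h : ℕ} (hm : Odd m) (hh : HH (m : ℤ) h) : 2 ≤ m := by
  by_contra hc
  have h1 : m = 1 := by
    rcases Nat.lt_or_ge m 1 with h0 | h0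
    · have : m = 0 := by omega
      subst this
      exact absurd hm (by decide)
    · omega
  subst h1
  exact hh.2 (by norm_num)

theorem pigeon {T : Set ℕ} (hT : T.Infinite) (f : ℕ → ℕ) (N : ℕ) (hf : ∀ i ∈ T, f i < N) :
    ∃ v, v < N ∧ {i | i ∈ T ∧ f i = v}.Infinite := by
  by_contra hcon
  push Not at hcon
  apply hT
  have h1 : T ⊆ ⋃ v ∈ (Finset.range N : Set ℕ), {i | i ∈ T ∧ f i = v} := by
    intro i hi
    simp only [Set.mem_iUnion]
    exact ⟨f i, by simpa using hf i hi, hi, rfl⟩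
  refine Set.Finite.subset (Set.Finite.biUnion (Finset.finite_toSet _) ?_) h1
  intro v hv
  have hv' : v < N := by simpa using hv
  exact hcon v hv'

theorem exists_big {T : Set ℕ} (hT : T.Infinite) {q : ℕ → Prop} (hq : ∀ᶠ i in atTop, q i) (n : ℕ) :
    ∃ j ∈ T, n < j ∧ q j := by
  obtain ⟨N, hN⟩ := eventually_atTop.1 hq
  obtain ⟨j, hj, hlt⟩ := hT.exists_gt (max n N)
  exact ⟨j, hj, by omega, hN j (by omega)⟩

theorem infinite_of_not_eventually {q : ℕ → Prop} (hq : ¬ ∀ᶠ i in atTop, q i) :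
    {i | ¬ q i}.Infinite := by
  rw [← Nat.frequently_atTop_iff_infinite]
  exact Filter.not_eventually.1 hq

theorem HH_term {n : ℕ} (hn : n ≠ 0) (h1 : oddPart n ≠ 1) :
    HH (oddPart n : ℤ) (hh n) := by
  apply HH_padic
  have := odd_oddPart hn
  rcases this with ⟨r, hr⟩
  omega


/-- The pair `(n, p)` has the shape of (sum, product) of two terms with exponent `V`. -/
def Good (V n p : ℕ) : Prop :=
  ∃ x y k : ℕ, Odd x ∧ Odd y ∧ HH (x : ℤ) k ∧ HH (y : ℤ) (k + 1) ∧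
    n = 2 ^ (V + 1) * x ∧ p = 2 ^ (2 * V) * y

theorem hh_eq {V h m : ℕ} (hm : Odd m) (hH : HH (m : ℤ) h) : hh (2 ^ V * m) = h := by
  have h2 := HH_ge_two hm hH
  unfold hh
  rw [oddPart_two_pow_mul V hm]
  exact HH_unique (HH_padic h2) hH

theorem Good.facts {V n p : ℕ} (hg : Good V n p) :
    oddPart n ≠ 1 ∧ oddPart p ≠ 1 ∧ vv n = V + 1 ∧ vv p = 2 * V ∧ hh p = hh n + 1 := by
  obtain ⟨x, y, k, hx, hy, hHx, hHy, rfl, rfl⟩ := hg
  have h1 := HH_ge_two hx hHx
  have h2 := HH_ge_two hy hHy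
  rw [oddPart_two_pow_mul _ hx, oddPart_two_pow_mul _ hy, vv_two_pow_mul _ hx,
    vv_two_pow_mul _ hy, hh_eq hx hHx, hh_eq hy hHy]
  exact ⟨by omega, by omega, rfl, rfl, rfl⟩

theorem pairA {V h m m' : ℕ} (hm : Odd m) (hm' : Odd m') (hH : HH (m : ℤ) h)
    (hd : (2 : ℤ) ^ (h + 2) ∣ (m' : ℤ) - m) :
    Good V (2 ^ V * m + 2 ^ V * m') ((2 ^ V * m) * (2 ^ V * m')) := by
  obtain ⟨x, hx⟩ := hm.add_odd hm'
  have hx2 : m + m' = 2 * x := by omega
  obtain ⟨t, ht⟩ := hd
  have hxm : (x : ℤ) - m = 2 ^ (h + 1) * t := by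
    have h5 : (m : ℤ) + m' = 2 * x := by exact_mod_cast hx2
    have h6 : 2 * ((x : ℤ) - m) = 2 * (2 ^ (h + 1) * t) := by
      have : (2 : ℤ) * (2 ^ (h + 1) * t) = 2 ^ (h + 2) * t := by ring
      rw [this, ← ht]; linarith
    linarith
  have hxo : Odd (x : ℤ) := by
    have : (x : ℤ) = m + 2 ^ (h + 1) * t := by linarith
    rw [this]
    apply Odd.add_even (by exact_mod_cast hm)
    exact ⟨2 ^ h * t, by ring⟩
  have hHx : HH (x : ℤ) h := HH_congr (by exact_mod_cast hm) hxo hH (by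
    rw [hxm, pow_succ]
    exact ⟨2 * t, by ring⟩)
  have hHp : HH ((m * m' : ℕ) : ℤ) (h + 1) := by
    push_cast
    apply HH_congr (m := (m : ℤ) * m)
    · exact_mod_cast hm.mul hm
    · exact_mod_cast hm.mul hm'
    · exact HH_sq (by exact_mod_cast hm) hH
    · have : (m : ℤ) * m' - m * m = m * (m' - m) := by ring
      rw [this, ht]
      exact ⟨m * (2 * t), by ring⟩
  have e1 : 2 ^ V * m + 2 ^ V * m' = 2 ^ (V + 1) * x := by
    rw [← mul_add, hx2]; ring
  have e2 : (2 ^ V * m) * (2 ^ V * m') = 2 ^ (2 * V) * (m * m') := by ring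
  exact ⟨x, m * m', h, by exact_mod_cast hxo, hm.mul hm', hHx, hHp, e1, e2⟩

theorem pairB {V h h' m m' : ℕ} {s : ℤ} (hs : s = 1 ∨ s = -1) (hm : Odd m) (hm' : Odd m')
    (hH : HH (m : ℤ) h) (hH' : HH (m' : ℤ) h') (h5 : 5 ≤ h) (hlt : h + 1 ≤ h')
    (h4 : (4 : ℤ) ∣ (m : ℤ) - s) (h4' : (4 : ℤ) ∣ (m' : ℤ) - s) :
    Good V (2 ^ V * m + 2 ^ V * m') ((2 ^ V * m) * (2 ^ V * m')) := by
  obtain ⟨k, rfl⟩ : ∃ k, h = k + 2 := ⟨h - 2, by omega⟩
  have hD := HH_to_DD hs h4 hH (by omega)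
  have hD' := HH_to_DD hs h4' hH' (by omega)
  simp only [Nat.add_succ_sub_one] at hD
  have hdv : (2 : ℤ) ^ (k + 2) ∣ (m' : ℤ) - s := dvd_trans (pow_dvd_pow 2 (by omega)) hD'.1
  obtain ⟨x, hx⟩ := hm.add_odd hm'
  have hx2 : m + m' = 2 * x := by omega
  have hDx : DD (x : ℤ) s k := DD_half (by exact_mod_cast hx2) hD hdv
  have hHx : HH (x : ℤ) (k + 1) := DD_to_HH hs (by omega) hDx
  have hxo : Odd (x : ℤ) := by
    have hso : Odd s := by rcases hs with rfl | rfl <;> decide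
    obtain ⟨t, ht⟩ := dvd_trans (pow_dvd_pow (2 : ℤ) (by omega : 1 ≤ k)) hDx.1
    have : (x : ℤ) = s + 2 ^ 1 * t := by linarith
    rw [this]
    exact hso.add_even ⟨t, by ring⟩
  have hDp : DD ((m : ℤ) * m') (s * s) (k + 1) := DD_mul hs hD hdv
  have hss : s * s = 1 ∨ s * s = -1 := by
    left; rcases hs with rfl | rfl <;> norm_num
  have hHp : HH ((m * m' : ℕ) : ℤ) (k + 1 + 1) := by
    push_cast
    exact DD_to_HH hss (by omega) hDp
  have e1 : 2 ^ V * m + 2 ^ V * m' = 2 ^ (V + 1) * x := by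
    rw [← mul_add, hx2]; ring
  have e2 : (2 ^ V * m) * (2 ^ V * m') = 2 ^ (2 * V) * (m * m') := by ring
  exact ⟨x, m * m', k + 1, by exact_mod_cast hxo, hm.mul hm', hHx, hHp, e1, e2⟩

theorem constV {a : ℕ → ℕ} (hpos : ∀ i, a i ≠ 0) {V : ℕ} {T : Set ℕ} (hT : T.Infinite)
    (hTV : ∀ i ∈ T, vv (a i) = V) (hTm : ∀ i ∈ T, oddPart (a i) ≠ 1) :
    ∃ T' : Set ℕ, T' ⊆ T ∧ T'.Infinite ∧
      ∀ i ∈ T', ∀ᶠ j in atTop, j ∈ T' → Good V (a i + a j) (a i * a j) := by
  have hform : ∀ i ∈ T, a i = 2 ^ V * oddPart (a i) := by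
    intro i hi
    have := eq_mul (a i)
    rwa [hTV i hi] at this
  have hHH : ∀ i ∈ T, HH (oddPart (a i) : ℤ) (hh (a i)) := fun i hi =>
    HH_term (hpos i) (hTm i hi)
  by_cases hcase : ∃ h, {i | i ∈ T ∧ hh (a i) = h}.Infinite
  · obtain ⟨h, hTh⟩ := hcase
    obtain ⟨r, -, hTr⟩ := pigeon hTh (fun i => oddPart (a i) % 2 ^ (h + 2)) (2 ^ (h + 2))
      (fun i _ => Nat.mod_lt _ (by positivity))
    refine ⟨_, ?_, hTr, ?_⟩
    · intro i hi
      exact hi.1.1
    · intro i hi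
      refine Filter.Eventually.of_forall ?_
      intro j hj
      have hmod : oddPart (a i) ≡ oddPart (a j) [MOD 2 ^ (h + 2)] := by
        have e1 : oddPart (a i) % 2 ^ (h + 2) = r := hi.2
        have e2 : oddPart (a j) % 2 ^ (h + 2) = r := hj.2
        exact e1.trans e2.symm
      have hd : (2 : ℤ) ^ (h + 2) ∣ (oddPart (a j) : ℤ) - oddPart (a i) := by
        have := (Nat.modEq_iff_dvd.1 hmod)
        exact_mod_cast this
      have hHi : HH (oddPart (a i) : ℤ) h := by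
        have := hHH i hi.1.1
        rwa [hi.1.2] at this
      have := pairA (V := V) (odd_oddPart (hpos i)) (odd_oddPart (hpos j)) hHi hd
      rwa [← hform i hi.1.1, ← hform j hj.1.1] at this
  · push Not at hcase
    have hfin : ∀ B, {i | i ∈ T ∧ hh (a i) < B}.Finite := by
      intro B
      by_contra hinf
      obtain ⟨v, -, hv⟩ := pigeon (T := {i | i ∈ T ∧ hh (a i) < B}) hinf (fun i => hh (a i)) B
        (fun i hi => hi.2)
      apply hv
      refine Set.Finite.subset (hcase v) ?_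
      intro i hi
      exact ⟨hi.1.1, hi.2⟩
    have hT5 : {i | i ∈ T ∧ 5 ≤ hh (a i)}.Infinite := by
      have : {i | i ∈ T ∧ 5 ≤ hh (a i)} = T \ {i | i ∈ T ∧ hh (a i) < 5} := by
        ext i
        simp only [Set.mem_ofPred_eq, Set.mem_sdiff, not_and, not_lt]
        tauto
      rw [this]
      exact hT.sdiff (hfin 5)
    obtain ⟨r, hr4, hTr⟩ := pigeon hT5 (fun i => oddPart (a i) % 4) 4
      (fun i _ => Nat.mod_lt _ (by norm_num))
    refine ⟨_, ?_, hTr, ?_⟩
    · intro i hi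
      exact hi.1.1
    · intro i hi
      have hev : ∀ᶠ j in atTop, j ∉ {j | j ∈ T ∧ hh (a j) < hh (a i) + 1} := by
        rw [← Nat.cofinite_eq_atTop]
        exact (hfin _).eventually_cofinite_notMem
      filter_upwards [hev] with j hj2 hj
      have hjT : j ∈ T := hj.1.1
      have hlt : hh (a i) + 1 ≤ hh (a j) := by
        by_contra hcc
        exact hj2 ⟨hjT, by omega⟩
      have oi := odd_oddPart (hpos i)
      have oj := odd_oddPart (hpos j)
      have ri : oddPart (a i) % 4 = r := hi.2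
      have rj : oddPart (a j) % 4 = r := hj.2
      obtain ⟨s, hs, h4, h4'⟩ : ∃ s : ℤ, (s = 1 ∨ s = -1) ∧ (4 : ℤ) ∣ (oddPart (a i) : ℤ) - s ∧
          (4 : ℤ) ∣ (oddPart (a j) : ℤ) - s := by
        obtain ⟨x, hx⟩ := oi
        obtain ⟨y, hy⟩ := oj
        rcases (by omega : r = 1 ∨ r = 3) with h | h
        · exact ⟨1, Or.inl rfl, by omega, by omega⟩
        · exact ⟨-1, Or.inr rfl, by omega, by omega⟩
      have := pairB (V := V) hs oi oj (hHH i hi.1.1) (hHH j hjT) hi.1.2 hlt h4 h4'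
      rwa [← hform i hi.1.1, ← hform j hjT] at this

noncomputable section

/-- The signed distance from `t` to the nearest integer. -/
def D (t : ℝ) : ℝ := t - round t

/-- `x` is within `g` of one of the numbers `1/8, 1/16, …`. -/
def Near (x g : ℝ) : Prop := ∃ T : ℕ, 3 ≤ T ∧ |x - (1 / 2) ^ T| ≤ g

open Classical in
/-- The class attached to the data `(x, τ, g, h)`. -/
def cell (x τ g : ℝ) (h : ℕ) : ℕ :=
  if |x| ≤ τ then h % 2
  else if |x| ≤ 3 / 10 then (if Near |x| g then 0 else 2 + ⌊Real.logb 2 (|x|⁻¹)⌋₊ % 2)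
  else if 9 / 20 ≤ |x| then h % 2
  else if 0 < x then 0 else 1

theorem cell_lt (x τ g : ℝ) (h : ℕ) : cell x τ g h < 4 := by
  unfold cell
  split_ifs <;> omega

theorem abs_D_le_int (t : ℝ) (n : ℤ) : |D t| ≤ |t - n| := round_le t n

theorem abs_D_le (t s : ℝ) : |D t| ≤ |D s| + |t - s| := by
  have h1 := abs_D_le_int t (round s)
  have h2 : t - (round s : ℝ) = (t - s) + (s - round s) := by ring
  have h3 := abs_add_le (t - s) (s - round s)
  rw [h2] at h1
  unfold D at *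
  linarith

theorem abs_D_sub_le (t s : ℝ) : |(|D t| - |D s|)| ≤ |t - s| := by
  have h1 := abs_D_le t s
  have h2 := abs_D_le s t
  rw [abs_sub_comm s t] at h2
  rw [abs_le]
  constructor <;> linarith

theorem D_add_int (t : ℝ) (n : ℤ) : D (t + n) = D t := by
  unfold D
  rw [round_add_intCast]
  push_cast
  ring

theorem D_eq_of_lt {t : ℝ} {n : ℤ} (h : |t - n| < 1 / 2) : D t = t - n := by
  have h1 : round t = n := by
    rw [round_eq, Int.floor_eq_iff]
    rw [abs_lt] at h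
    constructor <;> linarith
  unfold D
  rw [h1]

theorem abs_D_of_le {t : ℝ} (h : |t| ≤ 1 / 2) : |D t| = |t| := by
  apply le_antisymm
  · have := abs_D_le_int t 0
    simpa using this
  · unfold D
    set n := round t with hn
    by_cases h0 : n = 0
    · rw [h0]; simp
    · have h1 : (1 : ℝ) ≤ |(n : ℝ)| := by
        rw [← Int.cast_abs]
        exact_mod_cast Int.one_le_abs h0
      have h2 : |(n : ℝ)| ≤ |t - n| + |t| := by
        have := abs_sub_abs_le_abs_sub (n : ℝ) t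
        rw [abs_sub_comm (n : ℝ) t] at this
        linarith
      linarith

theorem abs_D_two_mul {d : ℝ} (h : |d| ≤ 1 / 2) :
    (|d| ≤ 1 / 4 → |D (2 * d)| = 2 * |d|) ∧ (1 / 4 ≤ |d| → |D (2 * d)| = 1 - 2 * |d|) := by
  constructor
  · intro h1
    rw [abs_D_of_le, abs_mul]
    · norm_num
    · rw [abs_mul]; norm_num; linarith
  · intro h1
    rcases le_total 0 d with h0 | h0
    · rw [abs_of_nonneg h0] at *
      have e : D (2 * d) = D (2 * d - 1) := by
        have := D_add_int (2 * d - 1) 1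
        rw [← this]; push_cast; ring_nf
      rw [e, abs_D_of_le]
      · rw [abs_of_nonpos (by linarith)]; ring
      · rw [abs_le]; constructor <;> linarith
    · rw [abs_of_nonpos h0] at *
      have e : D (2 * d) = D (2 * d + 1) := by
        have := D_add_int (2 * d) 1
        rw [← this]; push_cast; ring_nf
      rw [e, abs_D_of_le]
      · rw [abs_of_nonneg (by linarith)]; ring
      · rw [abs_le]; constructor <;> linarith

theorem level {x : ℝ} {T : ℕ} (h1 : (1 / 2 : ℝ) ^ (T + 1) < x) (h2 : x ≤ (1 / 2) ^ T) :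
    ⌊Real.logb 2 (x⁻¹)⌋₊ = T := by
  have hx : 0 < x := lt_trans (by positivity) h1
  have e : ∀ k : ℕ, Real.logb 2 (((1 : ℝ) / 2) ^ k) = -k := by
    intro k
    rw [Real.logb_pow, one_div, Real.logb_inv, Real.logb_self_eq_one (by norm_num)]
    ring
  have l1 : Real.logb 2 x ≤ -T := by
    rw [← e T]
    exact Real.logb_le_logb_of_le (by norm_num) hx h2
  have l2 : -((T + 1 : ℕ) : ℝ) < Real.logb 2 x := by
    rw [← e (T + 1)]
    exact Real.logb_lt_logb (by norm_num) (by positivity) h1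
  rw [Real.logb_inv, Nat.floor_eq_iff (by
    have : (0 : ℝ) ≤ T := Nat.cast_nonneg _
    linarith)]
  push_cast at l2
  constructor <;> linarith

/-- The case analysis behind the partition. -/
theorem core {d ds dp τs τp gs gp : ℝ} {hs hp : ℕ} (hd : |d| ≤ 1 / 2)
    (hτ1 : τs ≤ 1 / 64) (hτ : τp ≤ τs) (hτ0 : 0 < τs) (hgs : gs ≤ 1 / 200)
    (hs1 : |(|ds| - |d|)| ≤ 1 / 100)
    (hp1 : |(|dp| - |D (2 * d)|)| ≤ 1 / 100)
    (hsign : 28 / 100 ≤ |d| → |d| ≤ 48 / 100 → (0 < d → 0 < ds ∧ dp < 0) ∧ (d < 0 → ds < 0 ∧ 0 < dp))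
    (hW : τs < |ds| → |d| ≤ 1 / 4 → 19 / 10 * |ds| ≤ |dp|)
    (hN : ¬ Near |dp| gp)
    (hL : τs < |ds| → |d| ≤ 1 / 4 → |dp| ≤ 3 / 10 → ¬ Near |ds| gs →
      ⌊Real.logb 2 (|ds|⁻¹)⌋₊ % 2 ≠ ⌊Real.logb 2 (|dp|⁻¹)⌋₊ % 2)
    (hR : hp % 2 ≠ hs % 2 ∨ τp < |dp|) :
    cell ds τs gs hs ≠ cell dp τp gp hp := by
  obtain ⟨g1, g2⟩ := abs_D_two_mul hd
  set x := |ds| with hx
  set y := |dp| with hy
  set g := |D (2 * d)| with hg
  rw [abs_le] at hs1 hp1
  unfold cell
  rw [← hx, ← hy, if_neg hN]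
  by_cases s1 : x ≤ τs
  · rw [if_pos s1]
    have hd4 : |d| ≤ 1 / 4 := by linarith
    have := g1 hd4
    by_cases p1 : y ≤ τp
    · rw [if_pos p1]
      rcases hR with h | h
      · exact fun hc => h hc.symm
      · linarith
    · rw [if_neg p1, if_pos (by linarith)]
      omega
  · rw [if_neg s1]
    push Not at s1
    by_cases s2 : x ≤ 3 / 10
    · rw [if_pos s2]
      have p1 : ¬ y ≤ τp := by
        intro hc
        rcases le_total (|d|) (1 / 4) with h4 | h4
        · have := hW s1 h4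
          linarith
        · have := g2 h4
          linarith
      rw [if_neg p1]
      by_cases p2 : y ≤ 3 / 10
      · rw [if_pos p2]
        have h4 : |d| ≤ 1 / 4 := by
          by_contra hc
          push Not at hc
          have := g2 hc.le
          linarith
        by_cases hn : Near x gs
        · rw [if_pos hn]
          omega
        · rw [if_neg hn]
          have := hL s1 h4 p2 hn
          omega
      · rw [if_neg p2]
        have hn : ¬ Near x gs := by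
          rintro ⟨T, hT, hT2⟩
          have h8 : ((1 : ℝ) / 2) ^ T ≤ (1 / 2) ^ 3 :=
            pow_le_pow_of_le_one (by norm_num) (by norm_num) hT
          rw [abs_le] at hT2
          norm_num at h8
          have hd4 : |d| ≤ 1 / 4 := by linarith
          have := g1 hd4
          apply p2
          linarith
        rw [if_neg hn]
        split_ifs <;> omega
    · rw [if_neg s2]
      push Not at s2
      have h4 : 1 / 4 ≤ |d| := by linarith
      have h5 := g2 h4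
      by_cases s3 : 9 / 20 ≤ x
      · rw [if_pos s3]
        by_cases p1 : y ≤ τp
        · rw [if_pos p1]
          rcases hR with h | h
          · exact fun hc => h hc.symm
          · linarith
        · rw [if_neg p1, if_pos (by linarith)]
          omega
      · rw [if_neg s3]
        push Not at s3
        have p1 : ¬ y ≤ τp := by
          intro hc
          linarith
        rw [if_neg p1]
        by_cases p2 : y ≤ 3 / 10
        · rw [if_pos p2]
          split_ifs <;> omega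
        · rw [if_neg p2]
          have p3 : ¬ 9 / 20 ≤ y := by
            intro hc
            linarith
          rw [if_neg p3]
          obtain ⟨q1, q2⟩ := hsign (by linarith) (by linarith)
          rcases lt_trichotomy d 0 with h0 | h0 | h0
          · obtain ⟨r1, r2⟩ := q2 h0
            rw [if_neg (by linarith), if_pos r2]
            norm_num
          · rw [h0, abs_zero] at h4
            norm_num at h4
          · obtain ⟨r1, r2⟩ := q1 h0
            rw [if_pos r1, if_neg (by linarith)]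
            norm_num


/-- The threshold attached to the exponent `V`. -/
def tau (V : ℕ) : ℝ := (1 / 2) ^ (max V 2 + 4)

/-- The closeness attached to `n`. -/
def gg (n : ℕ) : ℝ := 1 / Real.sqrt n

/-- The class of `n`. -/
def col (n : ℕ) : ℕ :=
  if oddPart n = 1 then 2 else cell (D (Real.logb 2 n)) (tau (vv n)) (gg n) (hh n)

theorem col_lt (n : ℕ) : col n < 4 := by
  unfold col
  split_ifs
  · norm_num
  · exact cell_lt _ _ _ _

theorem tau_pos (V : ℕ) : 0 < tau V := by unfold tau; positivity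

theorem tau_le (V : ℕ) : tau V ≤ 1 / 64 := by
  unfold tau
  have : ((1 : ℝ) / 2) ^ (max V 2 + 4) ≤ (1 / 2) ^ 6 :=
    pow_le_pow_of_le_one (by norm_num) (by norm_num) (by omega)
  norm_num at this ⊢
  exact this

theorem tau_anti {V W : ℕ} (h : max V 2 ≤ max W 2) : tau W ≤ tau V := by
  unfold tau
  exact pow_le_pow_of_le_one (by norm_num) (by norm_num) (by omega)

theorem tau_le_pow {V K : ℕ} (h : K ≤ V) : tau V ≤ (1 / 2) ^ K := by
  unfold tau
  exact pow_le_pow_of_le_one (by norm_num) (by norm_num) (by omega)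

theorem gg_tendsto : Tendsto gg atTop (nhds 0) := by
  unfold gg
  exact tendsto_const_nhds.div_atTop (Real.tendsto_sqrt_atTop.comp tendsto_natCast_atTop_atTop)

theorem logb_sum_tendsto {b : ℕ → ℕ} (hb : StrictMono b) (hpos : ∀ i, b i ≠ 0) (n : ℕ) :
    Tendsto (fun j => Real.logb 2 ((n + b j : ℕ) : ℝ) - Real.logb 2 (b j)) atTop (nhds 0) := by
  have h1 : Tendsto (fun j => (n : ℝ) / (b j : ℝ)) atTop (nhds 0) :=
    tendsto_const_nhds.div_atTop (tendsto_natCast_atTop_atTop.comp hb.tendsto_atTop)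
  have h2 : Tendsto (fun j => (n : ℝ) / (b j : ℝ) + 1) atTop (nhds (0 + 1)) :=
    h1.add_const 1
  have h3 : Tendsto (fun x : ℝ => Real.logb 2 x) (nhds (0 + 1)) (nhds 0) := by
    have h4 : ContinuousAt (fun x : ℝ => Real.logb 2 x) (0 + 1) := by
      unfold Real.logb
      exact (Real.continuousAt_log (by norm_num)).div_const _
    have h5 := h4.tendsto
    simpa using h5
  have h6 := h3.comp h2
  refine h6.congr ?_
  intro j
  have hbj : (b j : ℝ) ≠ 0 := by exact_mod_cast hpos j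
  have hbp : (0 : ℝ) < b j := lt_of_le_of_ne (Nat.cast_nonneg _) (Ne.symm hbj)
  simp only [Function.comp_apply]
  rw [← Real.logb_div (by push_cast; positivity) hbj]
  congr 1
  push_cast
  field_simp

theorem sum_close {n m : ℕ} (hn : 1 ≤ n) (hm : 8 * n ^ 2 ≤ m) :
    |Real.logb 2 ((n + m : ℕ) : ℝ) - Real.logb 2 m| ≤ gg (n + m) := by
  have hn' : (1 : ℝ) ≤ n := by exact_mod_cast hn
  have hm' : 8 * (n : ℝ) ^ 2 ≤ m := by exact_mod_cast hm
  have hm0 : (0 : ℝ) < m := by nlinarith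
  have hnm : (n : ℝ) ≤ m := by nlinarith
  have e : Real.logb 2 ((n + m : ℕ) : ℝ) - Real.logb 2 m = Real.logb 2 (1 + n / m) := by
    rw [← Real.logb_div (by push_cast; positivity) hm0.ne']
    congr 1
    push_cast
    field_simp
    ring
  have h1 : (0 : ℝ) ≤ n / m := by positivity
  rw [e, abs_of_nonneg (Real.logb_nonneg (by norm_num) (by linarith))]
  have h2 : Real.logb 2 (1 + n / m) ≤ 2 * (n / m) := by
    unfold Real.logb
    have h3 : Real.log (1 + n / m) ≤ n / m := by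
      have := Real.log_le_sub_one_of_pos (by positivity : (0 : ℝ) < 1 + n / m)
      linarith
    have h4 : (1 / 2 : ℝ) ≤ Real.log 2 := by
      have := Real.log_two_gt_d9
      linarith
    rw [div_le_iff₀ (by linarith)]
    nlinarith
  refine h2.trans ?_
  unfold gg
  have h5 : (0 : ℝ) < Real.sqrt ((n + m : ℕ) : ℝ) := Real.sqrt_pos.2 (by push_cast; positivity)
  rw [le_div_iff₀ h5]
  have h6 : Real.sqrt ((n + m : ℕ) : ℝ) ≤ m / (2 * n) := by
    apply Real.sqrt_le_iff.2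
    refine ⟨by positivity, ?_⟩
    rw [div_pow, le_div_iff₀ (by positivity)]
    push_cast
    nlinarith
  calc 2 * ((n : ℝ) / m) * Real.sqrt ((n + m : ℕ) : ℝ) ≤ 2 * ((n : ℝ) / m) * (m / (2 * n)) :=
        mul_le_mul_of_nonneg_left h6 (by positivity)
    _ = 1 := by field_simp

/-- Dyadic rationals. -/
def Dy (t : ℝ) : Prop := ∃ (k : ℕ) (z : ℤ), (2 : ℝ) ^ k * t = z

theorem Dy.add {s t : ℝ} (hs : Dy s) (ht : Dy t) : Dy (s + t) := by
  obtain ⟨k, z, h⟩ := hs
  obtain ⟨l, w, h'⟩ := ht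
  refine ⟨k + l, 2 ^ l * z + 2 ^ k * w, ?_⟩
  push_cast
  rw [← h, ← h', pow_add]
  ring

theorem Dy.neg {s : ℝ} (hs : Dy s) : Dy (-s) := by
  obtain ⟨k, z, h⟩ := hs
  refine ⟨k, -z, ?_⟩
  push_cast
  rw [← h]
  ring

theorem Dy.int (z : ℤ) : Dy (z : ℝ) := ⟨0, z, by simp⟩

theorem Dy.half {s : ℝ} (hs : Dy (2 * s)) : Dy s := by
  obtain ⟨k, z, h⟩ := hs
  refine ⟨k + 1, z, ?_⟩
  rw [← h, pow_succ]
  ring

theorem Dy.of_abs {s : ℝ} (hs : Dy |s|) : Dy s := by
  rcases abs_choice s with h | h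
  · rwa [h] at hs
  · rw [h] at hs
    simpa using hs.neg

theorem Dy.of_D {t : ℝ} (hs : Dy (D t)) : Dy t := by
  have h := hs.add (Dy.int (round t))
  have e : D t + (round t : ℝ) = t := by unfold D; ring
  rwa [e] at h

/-- The levels together with `0`. -/
def BB : Set ℝ := insert 0 (Set.range fun T : ℕ => ((1 : ℝ) / 2) ^ T)

theorem BB_closed : IsClosed BB := by
  have h : Tendsto (fun T : ℕ => ((1 : ℝ) / 2) ^ T) atTop (nhds 0) :=
    tendsto_pow_atTop_nhds_zero_of_lt_one (by norm_num) (by norm_num)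
  exact h.isCompact_insert_range.isClosed

theorem Dy.of_BB {s : ℝ} (hs : s ∈ BB) : Dy s := by
  rcases hs with h | ⟨T, h⟩
  · rw [h]; exact ⟨0, 0, by simp⟩
  · refine ⟨T, 1, ?_⟩
    rw [← h]
    simp only
    rw [← mul_pow]
    norm_num

theorem not_dyadic {n : ℕ} (hn : n ≠ 0) (h1 : oddPart n ≠ 1) : ¬ Dy (Real.logb 2 n) := by
  rintro ⟨k, z, hz⟩
  have hn1 : (1 : ℝ) ≤ n := by exact_mod_cast Nat.one_le_iff_ne_zero.2 hn
  have h0 : 0 ≤ Real.logb 2 (n : ℝ) := Real.logb_nonneg (by norm_num) hn1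
  have hz0 : 0 ≤ z := by
    have : (0 : ℝ) ≤ (z : ℝ) := by rw [← hz]; positivity
    exact_mod_cast this
  obtain ⟨K, rfl⟩ := Int.eq_ofNat_of_zero_le hz0
  have h2 : Real.logb 2 ((n : ℝ) ^ (2 ^ k)) = K := by
    rw [Real.logb_pow]
    push_cast at hz ⊢
    exact hz
  have h3 : (n : ℝ) ^ (2 ^ k) = 2 ^ K := by
    have h4 := Real.rpow_logb (b := 2) (x := (n : ℝ) ^ (2 ^ k)) (by norm_num) (by norm_num)
      (by positivity)
    rw [h2, Real.rpow_natCast] at h4
    exact h4.symm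
  have h5 : n ^ (2 ^ k) = 2 ^ K := by exact_mod_cast h3
  have h6 : n ∣ 2 ^ K := by rw [← h5]; exact dvd_pow_self n (by positivity)
  obtain ⟨l, -, hl⟩ := (Nat.dvd_prime_pow Nat.prime_two).1 h6
  apply h1
  rw [hl]
  have := oddPart_two_pow_mul l (m := 1) odd_one
  simpa using this

theorem main_limit {b : ℕ → ℕ} (hb : StrictMono b) (hpos : ∀ i, b i ≠ 0)
    (hodd : ∀ i, oddPart (b i) ≠ 1)
    (I1 : ∀ i, ∃ Vs, ∀ᶠ j in atTop, oddPart (b i + b j) ≠ 1 ∧ oddPart (b i * b j) ≠ 1 ∧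
      vv (b i + b j) = Vs ∧ max Vs 2 ≤ max (vv (b i * b j)) 2)
    (I2 : (∀ i, ∀ᶠ j in atTop, hh (b i * b j) % 2 ≠ hh (b i + b j) % 2) ∨
      (∀ i K, ∀ᶠ j in atTop, K ≤ vv (b i * b j)))
    {d : ℝ} (hd : Tendsto (fun i => D (Real.logb 2 (b i))) atTop (nhds d))
    (hT : d ≠ 0 → ∃ T : ℕ, ∀ i, ((1 : ℝ) / 2) ^ (T + 1) < |D (Real.logb 2 (b i))| ∧
      |D (Real.logb 2 (b i))| ≤ (1 / 2) ^ T) :
    ∃ i j, i < j ∧ col (b i + b j) ≠ col (b i * b j) := by
  set δ : ℕ → ℝ := fun i => D (Real.logb 2 (b i)) with hδ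
  have hδ2 : ∀ i, |δ i| ≤ 1 / 2 := fun i => abs_sub_round _
  have hd2 : |d| ≤ 1 / 2 := by
    have h1 : Tendsto (fun i => |δ i|) atTop (nhds |d|) := hd.abs
    exact le_of_tendsto' h1 hδ2
  obtain ⟨ε, hε0, hε1, hε2⟩ : ∃ ε : ℝ, 0 < ε ∧ ε ≤ 1 / 400 ∧ (d ≠ 0 → ε ≤ |d| / 400) := by
    by_cases h0 : d = 0
    · exact ⟨1 / 400, by norm_num, le_rfl, fun h => absurd h0 h⟩
    · have : 0 < |d| := abs_pos.2 h0
      exact ⟨min (1 / 400) (|d| / 400), by positivity, min_le_left _ _, fun _ => min_le_right _ _⟩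
  have hclose : ∀ ρ : ℝ, 0 < ρ → ∀ᶠ i in atTop, |δ i - d| < ρ := by
    intro ρ hρ
    have := Metric.tendsto_nhds.1 hd ρ hρ
    simpa [Real.dist_eq] using this
  -- a good first index
  have hfreq : ∃ᶠ i in atTop, |D (δ i + d)| ∉ BB := by
    intro hcon
    simp only [not_not] at hcon
    have hlim : Tendsto (fun i => |D (δ i + d)|) atTop (nhds |D (2 * d)|) := by
      rw [Metric.tendsto_nhds]
      intro ρ hρ
      filter_upwards [hclose ρ hρ] with i hi
      rw [Real.dist_eq]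
      refine lt_of_le_of_lt (abs_D_sub_le _ _) ?_
      have : δ i + d - 2 * d = δ i - d := by ring
      rwa [this]
    have h2d : |D (2 * d)| ∈ BB := BB_closed.mem_of_tendsto hlim hcon
    have q1 : Dy (2 * d) := Dy.of_D (Dy.of_abs (Dy.of_BB h2d))
    obtain ⟨i, hi⟩ := hcon.exists
    have q2 : Dy (δ i + d) := Dy.of_D (Dy.of_abs (Dy.of_BB hi))
    apply not_dyadic (hpos i) (hodd i)
    apply Dy.of_D
    apply Dy.half
    have e : 2 * D (Real.logb 2 (b i)) = (δ i + d) + (δ i + d) + -(2 * d) := by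
      simp only [hδ]
      ring
    rw [e]
    exact (q2.add q2).add q1.neg
  obtain ⟨i, hi1, hi2⟩ := (hfreq.and_eventually (hclose ε hε0)).exists
  set κ := |D (δ i + d)| with hκ
  obtain ⟨r, hr0, hr⟩ : ∃ r : ℝ, 0 < r ∧ ∀ y ∈ BB, r ≤ |κ - y| := by
    obtain ⟨r, hr0, hr⟩ := Metric.isOpen_iff.1 BB_closed.isOpen_compl κ hi1
    refine ⟨r, hr0, ?_⟩
    intro y hy
    by_contra hc
    push Not at hc
    have : y ∈ Metric.ball κ r := by
      rw [Metric.mem_ball, Real.dist_eq, abs_sub_comm]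
      exact hc
    exact hr this hy
  have hκ0 : r ≤ κ := by
    have := hr 0 (Or.inl rfl)
    rwa [sub_zero, abs_of_nonneg (abs_nonneg _)] at this
  obtain ⟨Vs, hVs⟩ := I1 i
  have hτs0 := tau_pos Vs
  obtain ⟨ρ, hρ0, hρ1, hρ2, hρ3⟩ : ∃ ρ : ℝ, 0 < ρ ∧ ρ ≤ ε ∧ ρ ≤ tau Vs / 2 ∧ ρ ≤ r / 4 := by
    refine ⟨min ε (min (tau Vs / 2) (r / 4)), by positivity, min_le_left _ _,
      (min_le_right _ _).trans (min_le_left _ _), (min_le_right _ _).trans (min_le_right _ _)⟩
  have hL : ∀ᶠ j in atTop,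
      |Real.logb 2 ((b i + b j : ℕ) : ℝ) - Real.logb 2 (b j)| < ρ := by
    have := Metric.tendsto_nhds.1 (logb_sum_tendsto hb hpos (b i)) ρ hρ0
    simpa only [Real.dist_eq, sub_zero] using this
  have hbt : Tendsto b atTop atTop := hb.tendsto_atTop
  have hbi : 1 ≤ b i := Nat.one_le_iff_ne_zero.2 (hpos i)
  have hL2 : ∀ᶠ j in atTop,
      |Real.logb 2 ((b i + b j : ℕ) : ℝ) - Real.logb 2 (b j)| ≤ gg (b i + b j) := by
    filter_upwards [hbt.eventually_ge_atTop (8 * (b i) ^ 2)] with j hj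
    exact sum_close hbi hj
  have hgev : ∀ ρ' : ℝ, 0 < ρ' → ∀ᶠ k in atTop, gg k < ρ' := fun ρ' hρ' =>
    gg_tendsto.eventually (gt_mem_nhds hρ')
  have hts : Tendsto (fun j => b i + b j) atTop atTop :=
    tendsto_atTop_mono (fun j => Nat.le_add_left _ _) hbt
  have htp : Tendsto (fun j => b i * b j) atTop atTop :=
    tendsto_atTop_mono (fun j => Nat.le_mul_of_pos_left _ hbi) hbt
  have hg1 : ∀ᶠ j in atTop, gg (b i + b j) < 1 / 200 := hts.eventually (hgev _ (by norm_num))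
  have hg2 : ∀ᶠ j in atTop, gg (b i * b j) < r / 2 := htp.eventually (hgev _ (by positivity))
  have hprodD : ∀ j, D (Real.logb 2 ((b i * b j : ℕ) : ℝ)) = D (δ i + δ j) := by
    intro j
    have hi0 : (b i : ℝ) ≠ 0 := by exact_mod_cast hpos i
    have hj0 : (b j : ℝ) ≠ 0 := by exact_mod_cast hpos j
    have e : Real.logb 2 ((b i * b j : ℕ) : ℝ) = (δ i + δ j) +
        ((round (Real.logb 2 (b i)) + round (Real.logb 2 (b j)) : ℤ) : ℝ) := by
      push_cast
      rw [Real.logb_mul hi0 hj0]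
      simp only [hδ, D]
      ring
    rw [e, D_add_int]
  have hpκ : ∀ j, |δ j - d| < ρ → |(|D (δ i + δ j)| - κ)| < ρ := by
    intro j hj
    refine lt_of_le_of_lt (abs_D_sub_le _ _) ?_
    have : δ i + δ j - (δ i + d) = δ j - d := by ring
    rwa [this]
  have hR : ∀ᶠ j in atTop, hh (b i * b j) % 2 ≠ hh (b i + b j) % 2 ∨
      tau (vv (b i * b j)) < |D (δ i + δ j)| := by
    rcases I2 with h | h
    · filter_upwards [h i] with j hj
      exact Or.inl hj
    · obtain ⟨K, hK⟩ := exists_pow_lt_of_lt_one (by positivity : (0 : ℝ) < r / 2)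
        (by norm_num : (1 / 2 : ℝ) < 1)
      filter_upwards [h i K, hclose ρ hρ0] with j hj1 hj2
      right
      have h1 := tau_le_pow hj1
      have h2 := abs_lt.1 (hpκ j hj2)
      linarith
  obtain ⟨j, ⟨⟨⟨⟨⟨⟨hj1, hj2⟩, hj3⟩, hj4⟩, hj5⟩, hj6⟩, hj7⟩, hij⟩ :=
    (((((((hVs.and hL).and (hclose ρ hρ0)).and hR).and hL2).and hg1).and hg2).and
      (eventually_gt_atTop i)).exists
  obtain ⟨o1, o2, v1, v2⟩ := hj1
  refine ⟨i, j, hij, ?_⟩
  unfold col
  rw [if_neg o1, if_neg o2, v1, hprodD j]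
  have hpk := abs_lt.1 (hpκ j hj3)
  set s := Real.logb 2 ((b i + b j : ℕ) : ℝ) with hs
  have hDsj : |(|D s| - |δ j|)| ≤ |s - Real.logb 2 (b j)| := abs_D_sub_le s (Real.logb 2 (b j))
  have hDs : |(|D s| - |δ j|)| < ρ := lt_of_le_of_lt hDsj hj2
  have hDg : |(|D s| - |δ j|)| ≤ gg (b i + b j) := hDsj.trans hj5
  have hDj : |(|δ j| - |d|)| < ρ := lt_of_le_of_lt (abs_abs_sub_abs_le _ _) hj3
  have hDp : |(|D (δ i + δ j)| - |D (2 * d)|)| ≤ 2 * ε := by
    refine (abs_D_sub_le _ _).trans ?_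
    have h1 : δ i + δ j - 2 * d = (δ i - d) + (δ j - d) := by ring
    rw [h1]
    have := abs_add_le (δ i - d) (δ j - d)
    linarith
  have hDs2 : |(|D s| - |d|)| ≤ 2 * ρ := by
    have h1 : |D s| - |d| = (|D s| - |δ j|) + (|δ j| - |d|) := by ring
    rw [h1]
    have := abs_add_le (|D s| - |δ j|) (|δ j| - |d|)
    linarith
  obtain ⟨g1, g2⟩ := abs_D_two_mul hd2
  apply core hd2 (tau_le _) (tau_anti v2) hτs0 hj6.le
  · linarith
  · linarith
  · intro k1 k2
    have hj2' := abs_lt.1 hj2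
    have hj3' := abs_lt.1 hj3
    have hi2' := abs_lt.1 hi2
    have e3 : δ j = Real.logb 2 (b j) - round (Real.logb 2 (b j)) := rfl
    constructor
    · intro h0
      rw [abs_of_pos h0] at k1 k2
      constructor
      · rw [D_eq_of_lt (t := s) (n := round (Real.logb 2 (b j)))]
        · linarith
        · rw [abs_lt]; constructor <;> linarith
      · rw [D_eq_of_lt (t := δ i + δ j) (n := 1)]
        · push_cast; linarith
        · rw [abs_lt]; push_cast; constructor <;> linarith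
    · intro h0
      rw [abs_of_neg h0] at k1 k2
      constructor
      · rw [D_eq_of_lt (t := s) (n := round (Real.logb 2 (b j)))]
        · linarith
        · rw [abs_lt]; constructor <;> linarith
      · rw [D_eq_of_lt (t := δ i + δ j) (n := -1)]
        · push_cast; linarith
        · rw [abs_lt]; push_cast; constructor <;> linarith
  · intro k1 k2
    have hds := abs_le.1 hDs2
    have hdp := abs_le.1 hDp
    have hg := g1 k2
    by_cases h0 : d = 0
    · exfalso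
      rw [h0, abs_zero] at hds
      linarith
    · have h2 := hε2 h0
      linarith
  · rintro ⟨T, hT3, hT4⟩
    have h1 := hr _ (Or.inr ⟨T, rfl⟩)
    simp only at h1
    have h2 : |κ - (1 / 2) ^ T| ≤ |(|D (δ i + δ j)| - (1 / 2) ^ T)| + |(|D (δ i + δ j)| - κ)| := by
      have e : κ - (1 / 2) ^ T = (|D (δ i + δ j)| - (1 / 2) ^ T) - (|D (δ i + δ j)| - κ) := by ring
      rw [e]
      exact abs_sub _ _
    have h3 := hpκ j hj3
    linarith
  · intro k1 k2 k3 k4
    have hds := abs_le.1 hDs2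
    have hdp := abs_le.1 hDp
    have hg := g1 k2
    have h0 : d ≠ 0 := by
      intro h0
      rw [h0, abs_zero] at hds
      linarith
    have h2 := hε2 h0
    obtain ⟨T, hTT⟩ := hT h0
    obtain ⟨ti1, ti2⟩ := hTT i
    obtain ⟨tj1, tj2⟩ := hTT j
    change ((1 : ℝ) / 2) ^ (T + 1) < |δ i| at ti1
    change |δ i| ≤ ((1 : ℝ) / 2) ^ T at ti2
    change ((1 : ℝ) / 2) ^ (T + 1) < |δ j| at tj1
    change |δ j| ≤ ((1 : ℝ) / 2) ^ T at tj2
    have hDj' := abs_lt.1 hDj
    have hT2 : 2 ≤ T := by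
      by_contra hc
      have h8 : ((1 : ℝ) / 2) ^ 2 ≤ (1 / 2) ^ (T + 1) :=
        pow_le_pow_of_le_one (by norm_num) (by norm_num) (by omega)
      norm_num at h8
      linarith
    -- the product
    have hDi' := abs_le.1 (abs_abs_sub_abs_le (δ i) d)
    have hsame : |δ i + δ j| = |δ i| + |δ j| := by
      have hi2' := abs_lt.1 hi2
      have hj3' := abs_lt.1 hj3
      rcases lt_or_gt_of_ne h0 with h | h
      · rw [abs_of_neg h] at h2
        have a1 : δ i < 0 := by linarith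
        have a2 : δ j < 0 := by linarith
        rw [abs_of_neg a1, abs_of_neg a2, abs_of_neg (by linarith)]
        ring
      · rw [abs_of_pos h] at h2
        have a1 : 0 < δ i := by linarith
        have a2 : 0 < δ j := by linarith
        rw [abs_of_pos a1, abs_of_pos a2, abs_of_pos (by linarith)]
    have hprod : |D (δ i + δ j)| = |δ i| + |δ j| := by
      rw [abs_D_of_le, hsame]
      rw [hsame]
      linarith
    obtain ⟨T', rfl⟩ : ∃ T', T = T' + 1 := ⟨T - 1, by omega⟩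
    have e1 : ((1 : ℝ) / 2) ^ (T' + 1) = 2 * (1 / 2) ^ (T' + 1 + 1) := by
      rw [pow_succ _ (T' + 1)]; ring
    have e2 : ((1 : ℝ) / 2) ^ T' = 2 * (1 / 2) ^ (T' + 1) := by
      rw [pow_succ _ T']; ring
    have lp : ⌊Real.logb 2 (|D (δ i + δ j)|⁻¹)⌋₊ = T' := by
      apply level
      · rw [hprod]; linarith
      · rw [hprod]; linarith
    -- the sum
    have hDg' := abs_le.1 hDg
    have ls : ⌊Real.logb 2 (|D s|⁻¹)⌋₊ = T' + 1 := by
      apply level
      · by_contra hc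
        push Not at hc
        apply k4
        refine ⟨T' + 1 + 1, by omega, ?_⟩
        rw [abs_le]
        constructor <;> linarith
      · by_contra hc
        push Not at hc
        rcases Nat.lt_or_ge (T' + 1) 3 with h3 | h3
        · have : T' + 1 = 2 := by omega
          rw [this] at hc
          norm_num at hc
          linarith
        · apply k4
          refine ⟨T' + 1, h3, ?_⟩
          rw [abs_le]
          constructor <;> linarith
    rw [lp, ls]
    omega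
  · exact hj4

theorem oddPart_eq_one_pow {n : ℕ} (h : oddPart n = 1) : n = 2 ^ vv n := by
  have := eq_mul n
  rw [h, mul_one] at this
  exact this

/-- The case of infinitely many powers of two. -/
theorem powers {b : ℕ → ℕ} (hb : StrictMono b) (hpos : ∀ i, b i ≠ 0)
    (hpow : ∀ i, oddPart (b i) = 1) : ∃ i j, i < j ∧ col (b i + b j) ≠ col (b i * b j) := by
  have hform : ∀ i, b i = 2 ^ vv (b i) := fun i => oddPart_eq_one_pow (hpow i)
  have hL : ∀ᶠ j in atTop,
      |Real.logb 2 ((b 0 + b j : ℕ) : ℝ) - Real.logb 2 (b j)| < tau (vv (b 0)) := by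
    have := Metric.tendsto_nhds.1 (logb_sum_tendsto hb hpos (b 0)) _ (tau_pos (vv (b 0)))
    simpa only [Real.dist_eq, sub_zero] using this
  obtain ⟨j, hj, h0j⟩ := (hL.and (eventually_gt_atTop 0)).exists
  refine ⟨0, j, h0j, ?_⟩
  have hlt : vv (b 0) < vv (b j) := by
    have := hb h0j
    rw [hform 0, hform j] at this
    exact (Nat.pow_lt_pow_iff_right (by norm_num : 1 < 2)).1 this
  obtain ⟨e, he⟩ : ∃ e, vv (b j) = vv (b 0) + (e + 1) := ⟨vv (b j) - vv (b 0) - 1, by omega⟩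
  have hodd : Odd (1 + 2 ^ (e + 1)) := odd_one.add_even ⟨2 ^ e, by ring⟩
  have hsum : b 0 + b j = 2 ^ vv (b 0) * (1 + 2 ^ (e + 1)) := by
    have h1 := hform j
    rw [he, pow_add] at h1
    have h2 := hform 0
    calc b 0 + b j = 2 ^ vv (b 0) + 2 ^ vv (b 0) * 2 ^ (e + 1) := by rw [← h1, ← h2]
      _ = _ := by ring
  have hprod : oddPart (b 0 * b j) = 1 := by
    have h1 : b 0 * b j = 2 ^ (vv (b 0) + vv (b j)) * 1 := by
      rw [pow_add, ← hform 0, ← hform j, mul_one]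
    rw [h1, oddPart_two_pow_mul _ odd_one]
  have hvs : vv (b 0 + b j) = vv (b 0) := by rw [hsum, vv_two_pow_mul _ hodd]
  have hos : oddPart (b 0 + b j) ≠ 1 := by
    rw [hsum, oddPart_two_pow_mul _ hodd]
    have : 0 < 2 ^ (e + 1) := by positivity
    omega
  have hint : Real.logb 2 (b j : ℝ) = ((vv (b j) : ℤ) : ℝ) := by
    have h1 : (b j : ℝ) = 2 ^ vv (b j) := by exact_mod_cast hform j
    rw [h1, Real.logb_pow, Real.logb_self_eq_one (by norm_num)]
    push_cast
    rw [mul_one]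
  have hD : |D (Real.logb 2 ((b 0 + b j : ℕ) : ℝ))| ≤ tau (vv (b 0)) := by
    refine (abs_D_le_int _ (vv (b j) : ℤ)).trans ?_
    rw [← hint]
    exact hj.le
  unfold col
  rw [if_neg hos, if_pos hprod, hvs]
  unfold cell
  rw [if_pos hD]
  omega

/-- The case where the exponents tend to infinity. -/
theorem interface_inf {b : ℕ → ℕ} (hpos : ∀ i, b i ≠ 0) (hodd : ∀ i, oddPart (b i) ≠ 1)
    (hV : Tendsto (fun i => vv (b i)) atTop atTop) :
    (∀ i, ∃ Vs, ∀ᶠ j in atTop, oddPart (b i + b j) ≠ 1 ∧ oddPart (b i * b j) ≠ 1 ∧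
      vv (b i + b j) = Vs ∧ max Vs 2 ≤ max (vv (b i * b j)) 2) ∧
    (∀ i K, ∀ᶠ j in atTop, K ≤ vv (b i * b j)) := by
  have hprod : ∀ i j, b i * b j = 2 ^ (vv (b i) + vv (b j)) * (oddPart (b i) * oddPart (b j)) := by
    intro i j
    have h1 := eq_mul (b i)
    have h2 := eq_mul (b j)
    calc b i * b j = (2 ^ vv (b i) * oddPart (b i)) * (2 ^ vv (b j) * oddPart (b j)) := by
          rw [← h1, ← h2]
      _ = _ := by ring
  have hoi : ∀ i, Odd (oddPart (b i)) := fun i => odd_oddPart (hpos i)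
  have hvp : ∀ i j, vv (b i * b j) = vv (b i) + vv (b j) := by
    intro i j
    rw [hprod i j, vv_two_pow_mul _ ((hoi i).mul (hoi j))]
  constructor
  · intro i
    refine ⟨vv (b i), ?_⟩
    filter_upwards [hV.eventually_ge_atTop (vv (b i) + 1)] with j hj
    obtain ⟨e, he⟩ : ∃ e, vv (b j) = vv (b i) + (e + 1) := ⟨vv (b j) - vv (b i) - 1, by omega⟩
    have hodd2 : Odd (oddPart (b i) + 2 ^ (e + 1) * oddPart (b j)) :=
      (hoi i).add_even ⟨2 ^ e * oddPart (b j), by ring⟩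
    have hsum : b i + b j = 2 ^ vv (b i) * (oddPart (b i) + 2 ^ (e + 1) * oddPart (b j)) := by
      have h1 := eq_mul (b i)
      have h2 := eq_mul (b j)
      rw [he, pow_add] at h2
      calc b i + b j = 2 ^ vv (b i) * oddPart (b i) +
            2 ^ vv (b i) * 2 ^ (e + 1) * oddPart (b j) := by rw [← h1, ← h2]
        _ = _ := by ring
    refine ⟨?_, ?_, ?_, ?_⟩
    · rw [hsum, oddPart_two_pow_mul _ hodd2]
      have h1 : 0 < oddPart (b i) := (hoi i).pos
      have h2 : 0 < 2 ^ (e + 1) * oddPart (b j) := Nat.mul_pos (by positivity) (hoi j).pos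
      omega
    · rw [hprod i j, oddPart_two_pow_mul _ ((hoi i).mul (hoi j))]
      intro hc
      exact hodd i (Nat.eq_one_of_mul_eq_one_right hc)
    · rw [hsum, vv_two_pow_mul _ hodd2]
    · rw [hvp]
      omega
  · intro i K
    filter_upwards [hV.eventually_ge_atTop K] with j hj
    rw [hvp]
    omega

theorem finish_aux {b : ℕ → ℕ} (hb : StrictMono b) (hpos : ∀ i, b i ≠ 0)
    (hodd : ∀ i, oddPart (b i) ≠ 1)
    (I1 : ∀ i, ∃ Vs, ∀ᶠ j in atTop, oddPart (b i + b j) ≠ 1 ∧ oddPart (b i * b j) ≠ 1 ∧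
      vv (b i + b j) = Vs ∧ max Vs 2 ≤ max (vv (b i * b j)) 2)
    (I2 : (∀ i, ∀ᶠ j in atTop, hh (b i * b j) % 2 ≠ hh (b i + b j) % 2) ∨
      (∀ i K, ∀ᶠ j in atTop, K ≤ vv (b i * b j)))
    {d : ℝ} (hd : Tendsto (fun i => D (Real.logb 2 (b i))) atTop (nhds d)) :
    ∃ i j, i < j ∧ col (b i + b j) ≠ col (b i * b j) := by
  by_cases h0 : d = 0
  · exact main_limit hb hpos hodd I1 I2 hd (fun h => absurd h0 h)
  have hd0 : 0 < |d| := abs_pos.2 h0
  have hlim : Tendsto (fun i => |D (Real.logb 2 (b i))|) atTop (nhds |d|) := hd.abs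
  have hev : ∀ᶠ i in atTop, |d| / 2 < |D (Real.logb 2 (b i))| :=
    hlim.eventually (lt_mem_nhds (by linarith))
  have hex : ∀ i, ∃ T : ℕ, |d| / 2 < |D (Real.logb 2 (b i))| →
      ((1 : ℝ) / 2) ^ (T + 1) < |D (Real.logb 2 (b i))| ∧
      |D (Real.logb 2 (b i))| ≤ (1 / 2) ^ T := by
    intro i
    by_cases h : |d| / 2 < |D (Real.logb 2 (b i))|
    · have h1 : |D (Real.logb 2 (b i))| ≤ 1 / 2 := abs_sub_round _
      obtain ⟨T, hT1, hT2⟩ := exists_nat_pow_near_of_lt_one (by linarith :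
        0 < |D (Real.logb 2 (b i))|) (by linarith) (by norm_num : (0 : ℝ) < 1 / 2) (by norm_num)
      exact ⟨T, fun _ => ⟨hT1, hT2⟩⟩
    · exact ⟨0, fun h' => absurd h' h⟩
  choose f hf using hex
  obtain ⟨N, hN⟩ := exists_pow_lt_of_lt_one (by positivity : (0 : ℝ) < |d| / 2)
    (by norm_num : (1 / 2 : ℝ) < 1)
  have hS : {i | |d| / 2 < |D (Real.logb 2 (b i))|}.Infinite := by
    rw [← Nat.frequently_atTop_iff_infinite]
    exact hev.frequently
  obtain ⟨T, -, hTi⟩ := pigeon hS f N (by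
    intro i hi
    by_contra hc
    push Not at hc
    have h1 := (hf i hi).2
    have h2 : ((1 : ℝ) / 2) ^ (f i) ≤ (1 / 2) ^ N :=
      pow_le_pow_of_le_one (by norm_num) (by norm_num) hc
    have h3 : |d| / 2 < |D (Real.logb 2 (b i))| := hi
    linarith)
  have hTf : ∃ᶠ i in atTop, i ∈ {i | i ∈ {i | |d| / 2 < |D (Real.logb 2 (b i))|} ∧ f i = T} :=
    Nat.frequently_atTop_iff_infinite.2 hTi
  obtain ⟨φ, hφ, hφ2⟩ := Filter.extraction_of_frequently_atTop hTf
  have hφt := hφ.tendsto_atTop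
  obtain ⟨i, j, hij, h⟩ := main_limit (b := b ∘ φ) (hb.comp hφ) (fun i => hpos _)
    (fun i => hodd _)
    (by
      intro i
      obtain ⟨Vs, hVs⟩ := I1 (φ i)
      exact ⟨Vs, hφt.eventually hVs⟩)
    (by
      rcases I2 with h | h
      · left
        intro i
        exact hφt.eventually (h (φ i))
      · right
        intro i K
        exact hφt.eventually (h (φ i) K))
    (hd.comp hφt)
    (by
      intro _
      refine ⟨T, ?_⟩
      intro i
      obtain ⟨h1, h2⟩ := hφ2 i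
      have h3 := hf (φ i) h1
      rw [h2] at h3
      exact h3)
  exact ⟨φ i, φ j, hφ hij, h⟩

/-- Passing to a subsequence along which the fractional data converge. -/
theorem finish {b : ℕ → ℕ} (hb : StrictMono b) (hpos : ∀ i, b i ≠ 0)
    (hodd : ∀ i, oddPart (b i) ≠ 1)
    (I1 : ∀ i, ∃ Vs, ∀ᶠ j in atTop, oddPart (b i + b j) ≠ 1 ∧ oddPart (b i * b j) ≠ 1 ∧
      vv (b i + b j) = Vs ∧ max Vs 2 ≤ max (vv (b i * b j)) 2)
    (I2 : (∀ i, ∀ᶠ j in atTop, hh (b i * b j) % 2 ≠ hh (b i + b j) % 2) ∨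
      (∀ i K, ∀ᶠ j in atTop, K ≤ vv (b i * b j))) :
    ∃ i j, i < j ∧ col (b i + b j) ≠ col (b i * b j) := by
  have hmem : ∀ i, D (Real.logb 2 (b i)) ∈ Set.Icc (-(1 / 2) : ℝ) (1 / 2) := by
    intro i
    exact abs_le.1 (abs_sub_round _)
  obtain ⟨d, -, φ, hφ, hlim⟩ := isCompact_Icc.tendsto_subseq hmem
  have hφt := hφ.tendsto_atTop
  obtain ⟨i, j, hij, h⟩ := finish_aux (b := b ∘ φ) (hb.comp hφ) (fun i => hpos _)
    (fun i => hodd _)
    (by
      intro i
      obtain ⟨Vs, hVs⟩ := I1 (φ i)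
      exact ⟨Vs, hφt.eventually hVs⟩)
    (by
      rcases I2 with h | h
      · left
        intro i
        exact hφt.eventually (h (φ i))
      · right
        intro i K
        exact hφt.eventually (h (φ i) K))
    hlim
  exact ⟨φ i, φ j, hφ hij, h⟩

theorem main {a : ℕ → ℕ} (ha : StrictMono a) (h0 : 0 < a 0) :
    ∃ i j, i < j ∧ col (a i + a j) ≠ col (a i * a j) := by
  have hpos : ∀ i, a i ≠ 0 := by
    intro i
    have : a 0 ≤ a i := ha.monotone (Nat.zero_le i)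
    omega
  by_cases hp : ∃ᶠ i in atTop, oddPart (a i) = 1
  · obtain ⟨φ, hφ, hφ2⟩ := Filter.extraction_of_frequently_atTop hp
    obtain ⟨i, j, hij, h⟩ := powers (b := a ∘ φ) (ha.comp hφ) (fun i => hpos _) hφ2
    exact ⟨φ i, φ j, hφ hij, h⟩
  rw [Filter.not_frequently] at hp
  by_cases hc : ∃ V, ∃ᶠ i in atTop, vv (a i) = V
  · obtain ⟨V, hV⟩ := hc
    have hT : {i | vv (a i) = V ∧ oddPart (a i) ≠ 1}.Infinite := by
      rw [← Nat.frequently_atTop_iff_infinite]
      exact hV.and_eventually hp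
    obtain ⟨T', hT'1, hT'2, hT'3⟩ := constV hpos hT (fun i hi => hi.1) (fun i hi => hi.2)
    have hT'4 : ∃ᶠ i in atTop, i ∈ T' := Nat.frequently_atTop_iff_infinite.2 hT'2
    obtain ⟨φ, hφ, hφ2⟩ := Filter.extraction_of_frequently_atTop hT'4
    have hφt := hφ.tendsto_atTop
    have hgood : ∀ i, ∀ᶠ j in atTop,
        Good V ((a ∘ φ) i + (a ∘ φ) j) ((a ∘ φ) i * (a ∘ φ) j) := by
      intro i
      filter_upwards [hφt.eventually (hT'3 (φ i) (hφ2 i))] with j hj
      exact hj (hφ2 j)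
    obtain ⟨i, j, hij, h⟩ := finish (b := a ∘ φ) (ha.comp hφ) (fun i => hpos _)
      (fun i => (hT'1 (hφ2 i)).2)
      (by
        intro i
        refine ⟨V + 1, ?_⟩
        filter_upwards [hgood i] with j hj
        obtain ⟨f1, f2, f3, f4, f5⟩ := hj.facts
        exact ⟨f1, f2, f3, by omega⟩)
      (by
        left
        intro i
        filter_upwards [hgood i] with j hj
        obtain ⟨f1, f2, f3, f4, f5⟩ := hj.facts
        omega)
    exact ⟨φ i, φ j, hφ hij, h⟩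
  · push Not at hc
    have hVt : Tendsto (fun i => vv (a i)) atTop atTop := by
      rw [Filter.tendsto_atTop]
      intro K
      by_contra hcon
      have hS := infinite_of_not_eventually hcon
      obtain ⟨V, -, hVV⟩ := pigeon hS (fun i => vv (a i)) K (by
        intro i hi
        simp only [Set.mem_ofPred_eq, not_le] at hi
        exact hi)
      have h1 : ∃ᶠ i in atTop, vv (a i) = V := by
        rw [Nat.frequently_atTop_iff_infinite]
        exact hVV.mono (fun i hi => hi.2)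
      exact h1 (hc V)
    obtain ⟨φ, hφ, hφ2⟩ := Filter.extraction_of_frequently_atTop hp.frequently
    have hφt := hφ.tendsto_atTop
    obtain ⟨J1, J2⟩ := interface_inf (b := a ∘ φ) (fun i => hpos _) hφ2 (hVt.comp hφt)
    obtain ⟨i, j, hij, h⟩ := finish (b := a ∘ φ) (ha.comp hφ) (fun i => hpos _) hφ2 J1 (Or.inr J2)
    exact ⟨φ i, φ j, hφ hij, h⟩

end

/-- There is a partition of `ℕ` into four classes such that no infinite sequence of positive
integers has all its pairwise sums and pairwise products in one class. -/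
theorem result : ∃ c : ℕ → Fin 4, ∀ a : ℕ → ℕ, StrictMono a → 0 < a 0 →
    ¬ ∃ k : Fin 4, ∀ i j, i < j → c (a i + a j) = k ∧ c (a i * a j) = k := by
  refine ⟨fun n => ⟨col n, col_lt n⟩, ?_⟩
  rintro a ha h0 ⟨k, hk⟩
  obtain ⟨i, j, hij, h⟩ := main ha h0
  apply h
  have h1 := (hk i j hij).1.trans (hk i j hij).2.symm
  exact congrArg Fin.val h1

end Pool.Agent.Results.MP_60922f_co.FourClasses
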