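import Mathlib

set_option autoImplicit false

namespace Pool.Agent.Results.MP_60922f_co.TwoColours

open Filter

/-- `2 ^ h` is the exact power of two dividing `m ^ 2 - 1`. -/
def HH (m : ℤ) (h : ℕ) : Prop := (2 : ℤ) ^ h ∣ m ^ 2 - 1 ∧ ¬ (2 : ℤ) ^ (h + 1) ∣ m ^ 2 - 1

theorem HH_unique {m : ℤ} {h k : ℕ} (h1 : HH m h) (h2 : HH m k) : h = k := by
  rcases lt_trichotomy h k with hlt | heq | hgt
  · exact absurd (dvd_trans (pow_dvd_pow 2 hlt) h2.1) h1.2
  · exact heq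
  · exact absurd (dvd_trans (pow_dvd_pow 2 hgt) h1.1) h2.2

theorem HH_congr {m m' : ℤ} {h : ℕ} (hm : Odd m) (hm' : Odd m') (hh : HH m h)
    (hd : (2 : ℤ) ^ h ∣ m' - m) : HH m' h := by
  have h2 : (2 : ℤ) ∣ m' + m := (hm'.add_odd hm).two_dvd
  have h3 : (2 : ℤ) ^ (h + 1) ∣ (m' - m) * (m' + m) := by
    rw [pow_succ]
    exact mul_dvd_mul hd h2
  have e : m' ^ 2 - 1 = (m ^ 2 - 1) + (m' - m) * (m' + m) := by ring
  constructor
  · rw [e]
    exact dvd_add hh.1 (dvd_trans (pow_dvd_pow 2 (Nat.le_succ h)) h3)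
  · rw [e]
    intro hc
    exact hh.2 ((dvd_add_left h3).1 hc)

theorem odd_sq_add_one {m : ℤ} (hm : Odd m) : ∃ q : ℤ, Odd q ∧ m ^ 2 + 1 = 2 * q := by
  obtain ⟨t, rfl⟩ := hm
  exact ⟨2 * (t ^ 2 + t) + 1, ⟨t ^ 2 + t, rfl⟩, by ring⟩

theorem pow_dvd_of_mul_odd {x q : ℤ} {k : ℕ} (hq : Odd q) (h : (2 : ℤ) ^ k ∣ x * q) :
    (2 : ℤ) ^ k ∣ x := by
  have hc : IsCoprime ((2 : ℤ) ^ k) q := by
    apply IsCoprime.pow_left
    exact (Int.isCoprime_iff_gcd_eq_one.2 (by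
      have := Int.odd_iff.1 hq
      have h2 : Int.gcd 2 q = 1 := by
        rw [Int.gcd_comm]
        exact Int.isCoprime_iff_gcd_eq_one.1 (Int.isCoprime_two_right.2 hq)
      exact h2))
  exact hc.dvd_of_dvd_mul_right h

theorem HH_sq {m : ℤ} {h : ℕ} (hm : Odd m) (hh : HH m h) : HH (m * m) (h + 1) := by
  obtain ⟨q, hq, e⟩ := odd_sq_add_one hm
  have e2 : (m * m) ^ 2 - 1 = (m ^ 2 - 1) * q * 2 := by
    have : (m * m) ^ 2 - 1 = (m ^ 2 - 1) * (m ^ 2 + 1) := by ring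
    rw [this, e]; ring
  constructor
  · rw [e2, pow_succ]
    exact mul_dvd_mul (Dvd.dvd.mul_right hh.1 q) (dvd_refl 2)
  · rw [e2, pow_succ]
    intro hc
    have h3 : (2 : ℤ) ^ (h + 1) ∣ (m ^ 2 - 1) * q :=
      (mul_dvd_mul_iff_right (by norm_num : (2 : ℤ) ≠ 0)).1 hc
    exact hh.2 (pow_dvd_of_mul_odd hq h3)

theorem eight_dvd {m : ℤ} (hm : Odd m) : (2 : ℤ) ^ 3 ∣ m ^ 2 - 1 := by
  have := Int.eight_dvd_sq_sub_one_of_odd hm
  norm_num
  exact this

theorem HH_three {m : ℤ} {h : ℕ} (hm : Odd m) (hh : HH m h) : 3 ≤ h := by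
  by_contra hc
  exact hh.2 (dvd_trans (pow_dvd_pow 2 (by omega)) (eight_dvd hm))

/-- `m` is at exact 2-adic distance `2 ^ (-k)` from the sign `s`. -/
def DD (m s : ℤ) (k : ℕ) : Prop := (2 : ℤ) ^ k ∣ m - s ∧ ¬ (2 : ℤ) ^ (k + 1) ∣ m - s

theorem DD_to_HH {m s : ℤ} {k : ℕ} (hs : s = 1 ∨ s = -1) (hk : 2 ≤ k) (hd : DD m s k) :
    HH m (k + 1) := by
  obtain ⟨⟨t, ht⟩, hn⟩ := hd
  have hto : Odd t := by
    by_contra hc
    rw [Int.not_odd_iff_even] at hc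
    obtain ⟨r, hr⟩ := hc
    apply hn
    refine ⟨r, ?_⟩
    rw [ht, hr, pow_succ]; ring
  obtain ⟨j, rfl⟩ : ∃ j, k = j + 2 := ⟨k - 2, by omega⟩
  have hs2 : s ^ 2 = 1 := by rcases hs with rfl | rfl <;> norm_num
  have hso : Odd s := by rcases hs with rfl | rfl <;> decide
  have e : m ^ 2 - 1 = (t * (s + 2 ^ (j + 1) * t)) * 2 ^ (j + 2 + 1) := by
    have : m = s + 2 ^ (j + 2) * t := by linarith
    rw [this]
    have : (s + 2 ^ (j + 2) * t) ^ 2 - 1 = s ^ 2 - 1 + (2 * s * (2 ^ (j + 2) * t) + (2 ^ (j + 2) * t) ^ 2) := by ring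
    rw [this, hs2]; ring
  have ho : Odd (t * (s + 2 ^ (j + 1) * t)) := by
    apply hto.mul
    apply hso.add_even
    rw [pow_succ]
    exact ⟨2 ^ j * t, by ring⟩
  constructor
  · rw [e]; exact Dvd.intro_left _ rfl
  · rw [e, pow_succ _ (j + 2 + 1)]
    intro hc
    rw [mul_comm (2 ^ (j + 2 + 1) : ℤ) 2] at hc
    have := (mul_dvd_mul_iff_right (by positivity : (2 : ℤ) ^ (j + 2 + 1) ≠ 0)).1 hc
    exact (Int.not_even_iff_odd.2 ho) (even_iff_two_dvd.2 this)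

theorem HH_to_DD {m s : ℤ} {h : ℕ} (hs : s = 1 ∨ s = -1) (h4 : (4 : ℤ) ∣ m - s) (hh : HH m h)
    (h1 : 1 ≤ h) : DD m s (h - 1) := by
  obtain ⟨j, rfl⟩ : ∃ j, h = j + 1 := ⟨h - 1, by omega⟩
  obtain ⟨t, ht⟩ := h4
  have hs2 : s ^ 2 = 1 := by rcases hs with rfl | rfl <;> norm_num
  have hso : Odd s := by rcases hs with rfl | rfl <;> decide
  have e : m ^ 2 - 1 = (m - s) * (s + 2 * t) * 2 := by
    have : m = s + 4 * t := by linarith
    rw [this]
    have : (s + 4 * t) ^ 2 - 1 = s ^ 2 - 1 + (8 * s * t + 16 * t ^ 2) := by ring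
    rw [this, hs2]; ring
  have ho : Odd (s + 2 * t) := hso.add_even ⟨t, by ring⟩
  simp only [Nat.add_sub_cancel]
  constructor
  · have := hh.1
    rw [e, pow_succ] at this
    exact pow_dvd_of_mul_odd ho ((mul_dvd_mul_iff_right (by norm_num : (2 : ℤ) ≠ 0)).1 this)
  · intro hc
    apply hh.2
    rw [e, pow_succ]
    exact mul_dvd_mul (Dvd.dvd.mul_right hc _) (dvd_refl 2)

theorem DD_mul {m m' s s' : ℤ} {k : ℕ} (hs' : s' = 1 ∨ s' = -1)
    (hd : DD m s k) (hd' : (2 : ℤ) ^ (k + 1) ∣ m' - s') : DD (m * m') (s * s') k := by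
  have hso : Odd s' := by rcases hs' with rfl | rfl <;> decide
  have e : m * m' - s * s' = (m - s) * s' + m * (m' - s') := by ring
  have h2 : (2 : ℤ) ^ (k + 1) ∣ m * (m' - s') := Dvd.dvd.mul_left hd' m
  constructor
  · rw [e]
    exact dvd_add (Dvd.dvd.mul_right hd.1 _) (dvd_trans (pow_dvd_pow 2 (Nat.le_succ k)) h2)
  · rw [e]
    intro hc
    exact hd.2 (pow_dvd_of_mul_odd hso ((dvd_add_left h2).1 hc))

theorem DD_half {m m' s x : ℤ} {k : ℕ} (hx : m + m' = 2 * x) (hd : DD m s (k + 1))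
    (hd' : (2 : ℤ) ^ (k + 2) ∣ m' - s) : DD x s k := by
  have e : (x - s) * 2 = (m - s) + (m' - s) := by linarith
  constructor
  · have : (2 : ℤ) ^ (k + 1) ∣ (x - s) * 2 := by
      rw [e]
      exact dvd_add hd.1 (dvd_trans (pow_dvd_pow 2 (by omega)) hd')
    rw [pow_succ] at this
    exact (mul_dvd_mul_iff_right (by norm_num : (2 : ℤ) ≠ 0)).1 this
  · intro hc
    have h1 : (2 : ℤ) ^ (k + 1 + 1) ∣ (x - s) * 2 := by
      rw [pow_succ]
      exact mul_dvd_mul hc (dvd_refl 2)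
    rw [e] at h1
    exact hd.2 ((dvd_add_left hd').1 h1)


/-- The exponent of two in `n`. -/
def vv (n : ℕ) : ℕ := padicValNat 2 n

/-- The odd part of `n`. -/
def oddPart (n : ℕ) : ℕ := n / 2 ^ vv n

/-- The exponent of two in `m ^ 2 - 1`, where `m` is the odd part of `n`. -/
def hh (n : ℕ) : ℕ := padicValNat 2 (oddPart n ^ 2 - 1)

theorem vv_two_pow_mul (V : ℕ) {m : ℕ} (hm : Odd m) : vv (2 ^ V * m) = V := by
  have hm0 : m ≠ 0 := by rintro rfl; exact absurd hm (by decide)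
  unfold vv
  rw [padicValNat.mul (by positivity) hm0, padicValNat.prime_pow,
    padicValNat.eq_zero_of_not_dvd (by
      intro h
      exact (Nat.not_even_iff_odd.2 hm) (even_iff_two_dvd.2 h))]
  rfl

theorem oddPart_two_pow_mul (V : ℕ) {m : ℕ} (hm : Odd m) : oddPart (2 ^ V * m) = m := by
  unfold oddPart
  rw [vv_two_pow_mul V hm]
  exact Nat.mul_div_cancel_left m (by positivity)

theorem eq_mul (n : ℕ) : n = 2 ^ vv n * oddPart n :=
  (Nat.mul_div_cancel' pow_padicValNat_dvd).symm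

theorem odd_oddPart {n : ℕ} (hn : n ≠ 0) : Odd (oddPart n) := by
  by_contra hc
  rw [Nat.not_odd_iff_even] at hc
  obtain ⟨r, hr⟩ := hc
  apply pow_succ_padicValNat_not_dvd (p := 2) hn
  refine ⟨r, ?_⟩
  have := eq_mul n
  unfold vv at this
  rw [hr] at this
  rw [pow_succ]
  calc n = 2 ^ padicValNat 2 n * (r + r) := this
    _ = _ := by ring

theorem HH_padic {m : ℕ} (hm : 2 ≤ m) : HH (m : ℤ) (padicValNat 2 (m ^ 2 - 1)) := by
  have h1 : 1 ≤ m ^ 2 := Nat.one_le_pow _ _ (by omega)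
  have h2 : m ^ 2 - 1 ≠ 0 := by
    have : 2 ^ 2 ≤ m ^ 2 := Nat.pow_le_pow_left hm 2
    omega
  have e : ((m ^ 2 - 1 : ℕ) : ℤ) = (m : ℤ) ^ 2 - 1 := by
    push_cast [Nat.cast_sub h1]; rfl
  constructor
  · rw [← e]
    exact_mod_cast (pow_padicValNat_dvd : 2 ^ padicValNat 2 (m ^ 2 - 1) ∣ m ^ 2 - 1)
  · rw [← e]
    intro hc
    exact pow_succ_padicValNat_not_dvd (p := 2) h2 (by exact_mod_cast hc)

theorem HH_ge_two {m : ℕ} {h : ℕ} (hm : Odd m) (hh : HH (m : ℤ) h) : 2 ≤ m := by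
  by_contra hc
  have h1 : m = 1 := by
    rcases Nat.lt_or_ge m 1 with h0 | h0
    · have : m = 0 := by omega
      subst this
      exact absurd hm (by decide)
    · omega
  subst h1
  exact hh.2 (by norm_num)

/-- The colour class attached to a relation `P`. -/
def Col (P : ℕ → ℕ → Prop) : Set ℕ :=
  {n | oddPart n = 1 ∨ (oddPart n ≠ 1 ∧ (P (vv n) (hh n) ↔ Even (hh n)))}

theorem mem_Col {P : ℕ → ℕ → Prop} {V h m : ℕ} (hm : Odd m) (hH : HH (m : ℤ) h) :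
    2 ^ V * m ∈ Col P ↔ (P V h ↔ Even h) := by
  have h2 := HH_ge_two hm hH
  have e : hh (2 ^ V * m) = h := by
    unfold hh
    rw [oddPart_two_pow_mul V hm]
    exact HH_unique (HH_padic h2) hH
  simp only [Col, Set.mem_ofPred_eq, oddPart_two_pow_mul V hm, vv_two_pow_mul V hm, e]
  constructor
  · rintro (h1 | h1)
    · omega
    · exact h1.2
  · intro h1
    exact Or.inr ⟨by omega, h1⟩

theorem pow_mem_Col {P : ℕ → ℕ → Prop} (V : ℕ) : 2 ^ V ∈ Col P := by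
  left
  have := oddPart_two_pow_mul V (m := 1) odd_one
  simpa using this

theorem pigeon {T : Set ℕ} (hT : T.Infinite) (f : ℕ → ℕ) (N : ℕ) (hf : ∀ i ∈ T, f i < N) :
    ∃ v, v < N ∧ {i | i ∈ T ∧ f i = v}.Infinite := by
  by_contra hcon
  push Not at hcon
  apply hT
  have h1 : T ⊆ ⋃ v ∈ (Finset.range N : Set ℕ), {i | i ∈ T ∧ f i = v} := by
    intro i hi
    simp only [Set.mem_iUnion]
    exact ⟨f i, by simpa using hf i hi, hi, rfl⟩
  refine Set.Finite.subset (Set.Finite.biUnion (Finset.finite_toSet _) ?_) h1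
  intro v hv
  have hv' : v < N := by simpa using hv
  exact hcon v hv'

theorem exists_big {T : Set ℕ} (hT : T.Infinite) {q : ℕ → Prop} (hq : ∀ᶠ i in atTop, q i) (n : ℕ) :
    ∃ j ∈ T, n < j ∧ q j := by
  obtain ⟨N, hN⟩ := eventually_atTop.1 hq
  obtain ⟨j, hj, hlt⟩ := hT.exists_gt (max n N)
  exact ⟨j, hj, by omega, hN j (by omega)⟩

theorem infinite_of_not_eventually {q : ℕ → Prop} (hq : ¬ ∀ᶠ i in atTop, q i) :
    {i | ¬ q i}.Infinite := by
  rw [← Nat.frequently_atTop_iff_infinite]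
  exact Filter.not_eventually.1 hq

section main

variable {P : ℕ → ℕ → Prop} {a : ℕ → ℕ}

theorem a_pos (ha : StrictMono a) (h0 : 0 < a 0) (i : ℕ) : a i ≠ 0 := by
  have : a 0 ≤ a i := ha.monotone (Nat.zero_le i)
  omega

/-- Only finitely many terms are powers of two. -/
theorem step0 (P3 : ∀ V, 3 ≤ V → ∃ B, ∀ h, B ≤ h → P V h)
    (ha : StrictMono a)
    (H : ∀ i j, i < j → (a i + a j ∈ Col P ↔ a i * a j ∈ Col P)) :
    ∀ᶠ i in atTop, oddPart (a i) ≠ 1 := by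
  by_contra hc
  have hS := infinite_of_not_eventually hc
  simp only [not_not] at hS
  have hform : ∀ i, oddPart (a i) = 1 → a i = 2 ^ vv (a i) := by
    intro i hi
    have := eq_mul (a i)
    rw [hi, mul_one] at this
    exact this
  have hbig : ∀ n i, oddPart (a i) = 1 → 2 ^ n < i → n < vv (a i) := by
    intro n i hi hlt
    have h1 : i ≤ a i := ha.le_apply
    have h2 := hform i hi
    rw [h2] at h1
    exact (Nat.pow_lt_pow_iff_right (by norm_num : 1 < 2)).1 (lt_of_lt_of_le hlt h1)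
  have key : ∀ i, oddPart (a i) = 1 → 3 ≤ vv (a i) → ∃ D, ∀ j, oddPart (a j) = 1 → i < j →
      vv (a i) + D ≤ vv (a j) → Odd (vv (a j) - vv (a i)) := by
    intro i hi h3
    obtain ⟨B, hB⟩ := P3 _ h3
    refine ⟨B + 2, ?_⟩
    intro j hj hij hV
    obtain ⟨d, hd⟩ : ∃ d, vv (a j) = vv (a i) + d := ⟨vv (a j) - vv (a i), by omega⟩
    have hd2 : 2 ≤ d := by omega
    obtain ⟨e, rfl⟩ : ∃ e, d = e + 2 := ⟨d - 2, by omega⟩
    have hodd : Odd (1 + 2 ^ (e + 2)) := by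
      apply Odd.add_even odd_one
      exact ⟨2 ^ (e + 1), by ring⟩
    have hH : HH ((1 + 2 ^ (e + 2) : ℕ) : ℤ) (e + 3) := by
      apply DD_to_HH (s := 1) (Or.inl rfl) (by omega)
      constructor
      · push_cast
        refine ⟨1, by ring⟩
      · push_cast
        intro hcc
        have h5 : (2 : ℤ) ^ (e + 2 + 1) ∣ 2 ^ (e + 2) := by
          have : (1 : ℤ) + 2 ^ (e + 2) - 1 = 2 ^ (e + 2) := by ring
          rwa [this] at hcc
        have h6 : (2 : ℕ) ^ (e + 2 + 1) ∣ 2 ^ (e + 2) := by exact_mod_cast h5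
        have := (Nat.pow_dvd_pow_iff_le_right (by norm_num : 1 < 2)).1 h6
        omega
    have hsum : a i + a j = 2 ^ vv (a i) * (1 + 2 ^ (e + 2)) := by
      rw [hform i hi, hform j hj, hd]
      have e1 : vv (2 ^ vv (a i)) = vv (a i) := by
        have := vv_two_pow_mul (vv (a i)) (m := 1) odd_one
        simpa using this
      rw [e1]
      ring
    have hprod : a i * a j = 2 ^ (vv (a i) + vv (a j)) := by
      rw [pow_add, ← hform i hi, ← hform j hj]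
    have h7 := H i j hij
    rw [hsum, hprod, mem_Col hodd hH] at h7
    have h8 := h7.2 (pow_mem_Col _)
    have h9 : P (vv (a i)) (e + 3) := hB _ (by omega)
    have h10 : Even (e + 3) := h8.1 h9
    have h11 : vv (a j) - vv (a i) = e + 2 := by omega
    rw [h11]
    rcases h10 with ⟨r, hr⟩
    exact ⟨r - 1, by omega⟩
  obtain ⟨i, hi, hi9⟩ := hS.exists_gt 8
  have hi3 : 3 < vv (a i) := hbig 3 i hi (by omega)
  obtain ⟨D, hD⟩ := key i hi (by omega)
  obtain ⟨j, hj, hj9⟩ := hS.exists_gt (max i (2 ^ (vv (a i) + D + 3)))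
  have hj3 : vv (a i) + D + 3 < vv (a j) := hbig _ j hj (by omega)
  obtain ⟨D', hD'⟩ := key j hj (by omega)
  obtain ⟨l, hl, hl9⟩ := hS.exists_gt (max j (2 ^ (vv (a j) + D' + 3)))
  have hl3 : vv (a j) + D' + 3 < vv (a l) := hbig _ l hl (by omega)
  have o1 := hD j hj (by omega) (by omega)
  have o2 := hD l hl (by omega) (by omega)
  have o3 := hD' l hl (by omega) (by omega)
  obtain ⟨r1, hr1⟩ := o1
  obtain ⟨r2, hr2⟩ := o2
  obtain ⟨r3, hr3⟩ := o3
  omega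

theorem HH_term {n : ℕ} (hn : n ≠ 0) (h1 : oddPart n ≠ 1) :
    HH (oddPart n : ℤ) (hh n) := by
  apply HH_padic
  have := odd_oddPart hn
  rcases this with ⟨r, hr⟩
  omega

/-- Residues of a pair with the same exponent and the same class. -/
theorem pair_case (P1 : ∀ V h, 3 ≤ h → (P (V + 1) h ↔ P (2 * V) (h + 1)))
    {V h m m' : ℕ} (hm : Odd m) (hm' : Odd m') (hH : HH (m : ℤ) h)
    (hd : (2 : ℤ) ^ (h + 2) ∣ (m' : ℤ) - m) :
    ¬ (2 ^ V * m + 2 ^ V * m' ∈ Col P ↔ (2 ^ V * m) * (2 ^ V * m') ∈ Col P) := by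
  have h3 := HH_three (by exact_mod_cast hm) hH
  obtain ⟨x, hx⟩ := hm.add_odd hm'
  have hx2 : m + m' = 2 * x := by omega
  obtain ⟨t, ht⟩ := hd
  have hxm : (x : ℤ) - m = 2 ^ (h + 1) * t := by
    have h5 : (m : ℤ) + m' = 2 * x := by exact_mod_cast hx2
    have h6 : 2 * ((x : ℤ) - m) = 2 * (2 ^ (h + 1) * t) := by
      have : (2 : ℤ) * (2 ^ (h + 1) * t) = 2 ^ (h + 2) * t := by ring
      rw [this, ← ht]; linarith
    linarith
  have hxo : Odd (x : ℤ) := by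
    have : (x : ℤ) = m + 2 ^ (h + 1) * t := by linarith
    rw [this]
    apply Odd.add_even (by exact_mod_cast hm)
    exact ⟨2 ^ h * t, by ring⟩
  have hHx : HH (x : ℤ) h := HH_congr (by exact_mod_cast hm) hxo hH (by
    rw [hxm, pow_succ]
    exact ⟨2 * t, by ring⟩)
  have hHp : HH ((m * m' : ℕ) : ℤ) (h + 1) := by
    push_cast
    apply HH_congr (m := (m : ℤ) * m)
    · exact_mod_cast hm.mul hm
    · exact_mod_cast hm.mul hm'
    · exact HH_sq (by exact_mod_cast hm) hH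
    · have : (m : ℤ) * m' - m * m = m * (m' - m) := by ring
      rw [this, ht]
      exact ⟨m * (2 * t), by ring⟩
  have e1 : 2 ^ V * m + 2 ^ V * m' = 2 ^ (V + 1) * x := by
    rw [← mul_add, hx2]; ring
  have e2 : (2 ^ V * m) * (2 ^ V * m') = 2 ^ (2 * V) * (m * m') := by ring
  rw [e1, e2, mem_Col (by exact_mod_cast hxo) hHx, mem_Col (hm.mul hm') hHp, P1 V h h3]
  intro hc
  rw [Nat.even_add_one] at hc
  tauto

theorem pair_case2 (P1 : ∀ V h, 3 ≤ h → (P (V + 1) h ↔ P (2 * V) (h + 1)))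
    {V h h' m m' : ℕ} {s : ℤ} (hs : s = 1 ∨ s = -1) (hm : Odd m) (hm' : Odd m')
    (hH : HH (m : ℤ) h) (hH' : HH (m' : ℤ) h') (h5 : 5 ≤ h) (hlt : h + 1 ≤ h')
    (h4 : (4 : ℤ) ∣ (m : ℤ) - s) (h4' : (4 : ℤ) ∣ (m' : ℤ) - s) :
    ¬ (2 ^ V * m + 2 ^ V * m' ∈ Col P ↔ (2 ^ V * m) * (2 ^ V * m') ∈ Col P) := by
  obtain ⟨k, rfl⟩ : ∃ k, h = k + 2 := ⟨h - 2, by omega⟩
  have hD := HH_to_DD hs h4 hH (by omega)
  have hD' := HH_to_DD hs h4' hH' (by omega)
  simp only [Nat.add_succ_sub_one] at hD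
  have hdv : (2 : ℤ) ^ (k + 2) ∣ (m' : ℤ) - s := dvd_trans (pow_dvd_pow 2 (by omega)) hD'.1
  obtain ⟨x, hx⟩ := hm.add_odd hm'
  have hx2 : m + m' = 2 * x := by omega
  have hDx : DD (x : ℤ) s k := DD_half (by exact_mod_cast hx2) hD hdv
  have hHx : HH (x : ℤ) (k + 1) := DD_to_HH hs (by omega) hDx
  have hxo : Odd (x : ℤ) := by
    have hso : Odd s := by rcases hs with rfl | rfl <;> decide
    obtain ⟨t, ht⟩ := dvd_trans (pow_dvd_pow (2 : ℤ) (by omega : 1 ≤ k)) hDx.1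
    have : (x : ℤ) = s + 2 ^ 1 * t := by linarith
    rw [this]
    exact hso.add_even ⟨t, by ring⟩
  have hDp : DD ((m : ℤ) * m') (s * s) (k + 1) := DD_mul hs hD hdv
  have hss : s * s = 1 ∨ s * s = -1 := by
    left; rcases hs with rfl | rfl <;> norm_num
  have hHp : HH ((m * m' : ℕ) : ℤ) (k + 1 + 1) := by
    push_cast
    exact DD_to_HH hss (by omega) hDp
  have e1 : 2 ^ V * m + 2 ^ V * m' = 2 ^ (V + 1) * x := by
    rw [← mul_add, hx2]; ring
  have e2 : (2 ^ V * m) * (2 ^ V * m') = 2 ^ (2 * V) * (m * m') := by ring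
  rw [e1, e2, mem_Col (by exact_mod_cast hxo) hHx, mem_Col (hm.mul hm') hHp,
    P1 V (k + 1) (by omega)]
  intro hc
  rw [Nat.even_add_one (n := k + 1)] at hc
  tauto

/-- The exponents of two tend to infinity. -/
theorem step1 (P1 : ∀ V h, 3 ≤ h → (P (V + 1) h ↔ P (2 * V) (h + 1)))
    (hpos : ∀ i, a i ≠ 0) (hne : ∀ᶠ i in atTop, oddPart (a i) ≠ 1)
    (H : ∀ i j, i < j → (a i + a j ∈ Col P ↔ a i * a j ∈ Col P)) (K : ℕ) :
    ∀ᶠ i in atTop, K ≤ vv (a i) := by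
  by_contra hc
  have hS := infinite_of_not_eventually hc
  obtain ⟨N, hN⟩ := eventually_atTop.1 hne
  have hS1 : {i | i ∈ {i | ¬ K ≤ vv (a i)} ∧ N ≤ i}.Infinite := by
    have : {i | i ∈ {i | ¬ K ≤ vv (a i)} ∧ N ≤ i} = {i | ¬ K ≤ vv (a i)} \ {i | i < N} := by
      ext i; simp only [Set.mem_ofPred_eq, Set.mem_sdiff, not_lt]
    rw [this]
    exact hS.sdiff (Set.finite_lt_nat N)
  obtain ⟨V, -, hT⟩ := pigeon hS1 (fun i => vv (a i)) K (by
    intro i hi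
    have := hi.1
    simp only [Set.mem_ofPred_eq, not_le] at this
    exact this)
  set T : Set ℕ := {i | i ∈ {i | i ∈ {i | ¬ K ≤ vv (a i)} ∧ N ≤ i} ∧ vv (a i) = V} with hTdef
  have hTV : ∀ i ∈ T, vv (a i) = V := fun i hi => hi.2
  have hTm : ∀ i ∈ T, oddPart (a i) ≠ 1 := fun i hi => hN i hi.1.2
  have hform : ∀ i ∈ T, a i = 2 ^ V * oddPart (a i) := by
    intro i hi
    have := eq_mul (a i)
    rwa [hTV i hi] at this
  have hHH : ∀ i ∈ T, HH (oddPart (a i) : ℤ) (hh (a i)) := fun i hi =>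
    HH_term (hpos i) (hTm i hi)
  by_cases hcase : ∃ h, {i | i ∈ T ∧ hh (a i) = h}.Infinite
  · obtain ⟨h, hTh⟩ := hcase
    obtain ⟨r, -, hTr⟩ := pigeon hTh (fun i => oddPart (a i) % 2 ^ (h + 2)) (2 ^ (h + 2))
      (fun i _ => Nat.mod_lt _ (by positivity))
    obtain ⟨i, hi, -⟩ := hTr.exists_gt 0
    obtain ⟨j, hj, hij⟩ := hTr.exists_gt i
    have hmod : oddPart (a i) ≡ oddPart (a j) [MOD 2 ^ (h + 2)] := by
      have e1 : oddPart (a i) % 2 ^ (h + 2) = r := hi.2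
      have e2 : oddPart (a j) % 2 ^ (h + 2) = r := hj.2
      exact e1.trans e2.symm
    have hd : (2 : ℤ) ^ (h + 2) ∣ (oddPart (a j) : ℤ) - oddPart (a i) := by
      have := (Nat.modEq_iff_dvd.1 hmod)
      exact_mod_cast this
    have hHi : HH (oddPart (a i) : ℤ) h := by
      have := hHH i hi.1.1
      rwa [hi.1.2] at this
    have := pair_case P1 (V := V) (odd_oddPart (hpos i)) (odd_oddPart (hpos j)) hHi hd
    rw [← hform i hi.1.1, ← hform j hj.1.1] at this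
    exact this (H i j hij)
  · push Not at hcase
    have hfin : ∀ B, {i | i ∈ T ∧ hh (a i) < B}.Finite := by
      intro B
      by_contra hinf
      obtain ⟨v, -, hv⟩ := pigeon (T := {i | i ∈ T ∧ hh (a i) < B}) hinf (fun i => hh (a i)) B
        (fun i hi => hi.2)
      apply hv
      refine Set.Finite.subset (hcase v) ?_
      intro i hi
      exact ⟨hi.1.1, hi.2⟩
    have hT5 : {i | i ∈ T ∧ 5 ≤ hh (a i)}.Infinite := by
      have : {i | i ∈ T ∧ 5 ≤ hh (a i)} = T \ {i | i ∈ T ∧ hh (a i) < 5} := by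
        ext i
        simp only [Set.mem_ofPred_eq, Set.mem_sdiff, not_and, not_lt]
        tauto
      rw [this]
      exact hT.sdiff (hfin 5)
    obtain ⟨r, hr4, hTr⟩ := pigeon hT5 (fun i => oddPart (a i) % 4) 4
      (fun i _ => Nat.mod_lt _ (by norm_num))
    obtain ⟨i, hi, -⟩ := hTr.exists_gt 0
    have hT6 : ({i | i ∈ {i | i ∈ T ∧ 5 ≤ hh (a i)} ∧ oddPart (a i) % 4 = r} \
        {j | j ∈ T ∧ hh (a j) < hh (a i) + 1}).Infinite := hTr.sdiff (hfin _)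
    obtain ⟨j, hj, hij⟩ := hT6.exists_gt i
    have hjT : j ∈ T := hj.1.1.1
    have hlt : hh (a i) + 1 ≤ hh (a j) := by
      by_contra hcc
      exact hj.2 ⟨hjT, by omega⟩
    have oi := odd_oddPart (hpos i)
    have oj := odd_oddPart (hpos j)
    have ri : oddPart (a i) % 4 = r := hi.2
    have rj : oddPart (a j) % 4 = r := hj.1.2
    obtain ⟨s, hs, h4, h4'⟩ : ∃ s : ℤ, (s = 1 ∨ s = -1) ∧ (4 : ℤ) ∣ (oddPart (a i) : ℤ) - s ∧
        (4 : ℤ) ∣ (oddPart (a j) : ℤ) - s := by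
      obtain ⟨x, hx⟩ := oi
      obtain ⟨y, hy⟩ := oj
      rcases (by omega : r = 1 ∨ r = 3) with h | h
      · exact ⟨1, Or.inl rfl, by omega, by omega⟩
      · exact ⟨-1, Or.inr rfl, by omega, by omega⟩
    have := pair_case2 P1 (V := V) hs oi oj (hHH i hi.1.1) (hHH j hjT) hi.1.2 hlt h4 h4'
    rw [← hform i hi.1.1, ← hform j hjT] at this
    exact this (H i j hij)

/-- A congruence pair with a much larger second exponent. -/
theorem pair_case3 {V V' h m m' : ℕ} (hm : Odd m) (hm' : Odd m') (hH : HH (m : ℤ) h)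
    (hd : (2 : ℤ) ^ (h + 1) ∣ (m' : ℤ) - m) (hV : V + h + 1 ≤ V') (hP : ¬ P V h)
    (hP' : ¬ P (V + V') (h + 1)) :
    ¬ (2 ^ V * m + 2 ^ V' * m' ∈ Col P ↔ (2 ^ V * m) * (2 ^ V' * m') ∈ Col P) := by
  obtain ⟨d, rfl⟩ : ∃ d, V' = V + (h + 1 + d) := ⟨V' - V - h - 1, by omega⟩
  obtain ⟨t, ht⟩ := hd
  have hHp : HH ((m * m' : ℕ) : ℤ) (h + 1) := by
    push_cast
    apply HH_congr (m := (m : ℤ) * m)
    · exact_mod_cast hm.mul hm
    · exact_mod_cast hm.mul hm'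
    · exact HH_sq (by exact_mod_cast hm) hH
    · have : (m : ℤ) * m' - m * m = m * (m' - m) := by ring
      rw [this, ht]
      exact ⟨m * t, by ring⟩
  have hxo : Odd (m + 2 ^ (h + 1 + d) * m') := by
    apply hm.add_even
    exact ⟨2 ^ (h + d) * m', by ring⟩
  have hHx : HH ((m + 2 ^ (h + 1 + d) * m' : ℕ) : ℤ) h := by
    apply HH_congr (m := (m : ℤ)) (by exact_mod_cast hm) (by exact_mod_cast hxo) hH
    push_cast
    exact ⟨2 ^ (1 + d) * m', by ring⟩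
  have e1 : 2 ^ V * m + 2 ^ (V + (h + 1 + d)) * m' = 2 ^ V * (m + 2 ^ (h + 1 + d) * m') := by
    rw [pow_add]; ring
  have e2 : (2 ^ V * m) * (2 ^ (V + (h + 1 + d)) * m') =
      2 ^ (V + (V + (h + 1 + d))) * (m * m') := by
    rw [pow_add]; ring
  rw [e1, e2, mem_Col hxo hHx, mem_Col (hm.mul hm') hHp]
  intro hc
  rw [Nat.even_add_one] at hc
  tauto

theorem pair_case4 {V V' h h' m m' : ℕ} (hm : Odd m) (hm' : Odd m') (hH : HH (m : ℤ) h)
    (hH' : HH (m' : ℤ) h') (hlt : h + 1 ≤ h') (hV : V + h + 1 ≤ V') (hP : P V h)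
    (hP' : ¬ P (V + V') h) :
    ¬ (2 ^ V * m + 2 ^ V' * m' ∈ Col P ↔ (2 ^ V * m) * (2 ^ V' * m') ∈ Col P) := by
  have h3 := HH_three (by exact_mod_cast hm) hH
  obtain ⟨d, rfl⟩ : ∃ d, V' = V + (h + 1 + d) := ⟨V' - V - h - 1, by omega⟩
  have hsign : ∀ n : ℕ, Odd n → ∃ s : ℤ, (s = 1 ∨ s = -1) ∧ (4 : ℤ) ∣ (n : ℤ) - s := by
    intro n hn
    obtain ⟨x, hx⟩ := hn
    rcases (by omega : n % 4 = 1 ∨ n % 4 = 3) with h | h
    · exact ⟨1, Or.inl rfl, by omega⟩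
    · exact ⟨-1, Or.inr rfl, by omega⟩
  obtain ⟨s, hs, h4⟩ := hsign m hm
  obtain ⟨s', hs', h4'⟩ := hsign m' hm'
  have hD := HH_to_DD hs h4 hH (by omega)
  have hD' := HH_to_DD hs' h4' hH' (by omega)
  have hdv : (2 : ℤ) ^ (h - 1 + 1) ∣ (m' : ℤ) - s' := dvd_trans (pow_dvd_pow 2 (by omega)) hD'.1
  have hDp : DD ((m : ℤ) * m') (s * s') (h - 1) := DD_mul hs' hD hdv
  have hss : s * s' = 1 ∨ s * s' = -1 := by
    rcases hs with rfl | rfl <;> rcases hs' with rfl | rfl <;> norm_num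
  have hHp : HH ((m * m' : ℕ) : ℤ) h := by
    have := DD_to_HH hss (by omega) hDp
    rw [Nat.sub_add_cancel (by omega)] at this
    push_cast
    exact this
  have hxo : Odd (m + 2 ^ (h + 1 + d) * m') := by
    apply hm.add_even
    exact ⟨2 ^ (h + d) * m', by ring⟩
  have hHx : HH ((m + 2 ^ (h + 1 + d) * m' : ℕ) : ℤ) h := by
    apply HH_congr (m := (m : ℤ)) (by exact_mod_cast hm) (by exact_mod_cast hxo) hH
    push_cast
    exact ⟨2 ^ (1 + d) * m', by ring⟩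
  have e1 : 2 ^ V * m + 2 ^ (V + (h + 1 + d)) * m' = 2 ^ V * (m + 2 ^ (h + 1 + d) * m') := by
    rw [pow_add]; ring
  have e2 : (2 ^ V * m) * (2 ^ (V + (h + 1 + d)) * m') =
      2 ^ (V + (V + (h + 1 + d))) * (m * m') := by
    rw [pow_add]; ring
  rw [e1, e2, mem_Col hxo hHx, mem_Col (hm.mul hm') hHp]
  tauto

/-- The odd parts tend 2-adically to `1` or `-1`. -/
theorem step2 (P2 : ∀ h, ∃ B, ∀ V, B ≤ V → ¬ P V h)
    (hpos : ∀ i, a i ≠ 0) (hne : ∀ᶠ i in atTop, oddPart (a i) ≠ 1)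
    (hV : ∀ K, ∀ᶠ i in atTop, K ≤ vv (a i))
    (H : ∀ i j, i < j → (a i + a j ∈ Col P ↔ a i * a j ∈ Col P)) (K : ℕ) :
    ∀ᶠ i in atTop, K ≤ hh (a i) := by
  by_contra hc
  have hS := infinite_of_not_eventually hc
  obtain ⟨N, hN⟩ := eventually_atTop.1 hne
  have hS1 : {i | i ∈ {i | ¬ K ≤ hh (a i)} ∧ N ≤ i}.Infinite := by
    have : {i | i ∈ {i | ¬ K ≤ hh (a i)} ∧ N ≤ i} = {i | ¬ K ≤ hh (a i)} \ {i | i < N} := by
      ext i; simp only [Set.mem_ofPred_eq, Set.mem_sdiff, not_lt]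
    rw [this]
    exact hS.sdiff (Set.finite_lt_nat N)
  obtain ⟨h, -, hT⟩ := pigeon hS1 (fun i => hh (a i)) K (by
    intro i hi
    have := hi.1
    simp only [Set.mem_ofPred_eq, not_le] at this
    exact this)
  obtain ⟨r, -, hTr⟩ := pigeon hT (fun i => oddPart (a i) % 2 ^ (h + 1)) (2 ^ (h + 1))
    (fun i _ => Nat.mod_lt _ (by positivity))
  obtain ⟨B, hB⟩ := P2 h
  obtain ⟨B', hB'⟩ := P2 (h + 1)
  obtain ⟨i, hi, -, hiV⟩ := exists_big hTr (hV B) 0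
  obtain ⟨j, hj, hij, hjV⟩ := exists_big hTr (hV (vv (a i) + h + 1 + B')) i
  have hmod : oddPart (a i) ≡ oddPart (a j) [MOD 2 ^ (h + 1)] := by
    have e1 : oddPart (a i) % 2 ^ (h + 1) = r := hi.2
    have e2 : oddPart (a j) % 2 ^ (h + 1) = r := hj.2
    exact e1.trans e2.symm
  have hd : (2 : ℤ) ^ (h + 1) ∣ (oddPart (a j) : ℤ) - oddPart (a i) := by
    have := (Nat.modEq_iff_dvd.1 hmod)
    exact_mod_cast this
  have hHi : HH (oddPart (a i) : ℤ) h := by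
    have := HH_term (hpos i) (hN i hi.1.1.2)
    have e : hh (a i) = h := hi.1.2
    rwa [e] at this
  have := pair_case3 (P := P) (V := vv (a i)) (V' := vv (a j)) (odd_oddPart (hpos i))
    (odd_oddPart (hpos j)) hHi hd (by omega) (hB _ hiV) (hB' _ (by omega))
  rw [← eq_mul, ← eq_mul] at this
  exact this (H i j hij)

/-- Eventually the relation `P` fails. -/
theorem step3 (P2 : ∀ h, ∃ B, ∀ V, B ≤ V → ¬ P V h)
    (hpos : ∀ i, a i ≠ 0) (hne : ∀ᶠ i in atTop, oddPart (a i) ≠ 1)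
    (hV : ∀ K, ∀ᶠ i in atTop, K ≤ vv (a i)) (hhh : ∀ K, ∀ᶠ i in atTop, K ≤ hh (a i))
    (H : ∀ i j, i < j → (a i + a j ∈ Col P ↔ a i * a j ∈ Col P)) :
    ∀ᶠ i in atTop, ¬ P (vv (a i)) (hh (a i)) := by
  by_contra hc
  have hS := infinite_of_not_eventually hc
  simp only [not_not] at hS
  obtain ⟨i, hi, -, hi1⟩ := exists_big hS hne 0
  obtain ⟨B, hB⟩ := P2 (hh (a i))
  obtain ⟨j, ⟨hj1, hj2, hj3⟩, hij⟩ := (((hV (vv (a i) + hh (a i) + 1 + B)).and
    ((hhh (hh (a i) + 1)).and hne)).and (eventually_gt_atTop i)).exists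
  have := pair_case4 (P := P) (V := vv (a i)) (V' := vv (a j)) (odd_oddPart (hpos i))
    (odd_oddPart (hpos j)) (HH_term (hpos i) hi1) (HH_term (hpos j) hj3) hj2 (by omega) hi
    (hB _ (by omega))
  rw [← eq_mul, ← eq_mul] at this
  exact this (H i j hij)

end main

/-- A nondecreasing function that dominates `G` on `[0, 2e]` and `4 ^ e`. -/
def GG (G : ℕ → ℕ) (e : ℕ) : ℕ := 4 ^ e + ∑ k ∈ Finset.range (2 * e + 1), G k

theorem GG_mono (G : ℕ → ℕ) : Monotone (GG G) := by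
  intro x y hxy
  unfold GG
  apply add_le_add (Nat.pow_le_pow_right (by norm_num) hxy)
  apply Finset.sum_le_sum_of_subset
  intro k hk
  simp only [Finset.mem_range] at *
  omega

theorem le_GG (G : ℕ → ℕ) {e k : ℕ} (hk : k ≤ 2 * e) : G k ≤ GG G e := by
  unfold GG
  have : G k ≤ ∑ k ∈ Finset.range (2 * e + 1), G k :=
    Finset.single_le_sum (f := G) (fun _ _ => Nat.zero_le _) (by simp; omega)
  exact this.trans (Nat.le_add_left _ _)

/-- The relation used in the colouring. -/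
def PG (G : ℕ → ℕ) (V h : ℕ) : Prop :=
  3 ≤ V ∧ padicValNat 2 (V - 2) < h ∧
    (V - 2) / 2 ^ padicValNat 2 (V - 2) ≤ GG G (h - padicValNat 2 (V - 2))

theorem PG1 (G : ℕ → ℕ) (V h : ℕ) : PG G (V + 1) h ↔ PG G (2 * V) (h + 1) := by
  rcases Nat.lt_or_ge V 2 with hV | hV
  · unfold PG
    constructor
    · rintro ⟨h1, -⟩; omega
    · rintro ⟨h1, -⟩; omega
  · obtain ⟨u, rfl⟩ : ∃ u, V = u + 1 := ⟨V - 1, by omega⟩
    have hu : u ≠ 0 := by omega
    have e1 : u + 1 + 1 - 2 = u := by omega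
    have e2 : 2 * (u + 1) - 2 = 2 * u := by omega
    have e3 : padicValNat 2 (2 * u) = padicValNat 2 u + 1 := by
      rw [padicValNat.mul (by norm_num) hu, padicValNat_self]; ring
    have e4 : 2 * u / 2 ^ (padicValNat 2 u + 1) = u / 2 ^ padicValNat 2 u := by
      rw [pow_succ, mul_comm (2 ^ padicValNat 2 u) 2]
      exact Nat.mul_div_mul_left _ _ (by norm_num)
    have e5 : h + 1 - (padicValNat 2 u + 1) = h - padicValNat 2 u := by omega
    unfold PG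
    rw [e1, e2, e3, e4, e5]
    constructor
    · rintro ⟨-, h2, h3⟩; exact ⟨by omega, by omega, h3⟩
    · rintro ⟨-, h2, h3⟩; exact ⟨by omega, by omega, h3⟩

theorem PG2 (G : ℕ → ℕ) (h : ℕ) : ∃ B, ∀ V, B ≤ V → ¬ PG G V h := by
  refine ⟨2 ^ h * GG G h + 3, ?_⟩
  rintro V hV ⟨h1, h2, h3⟩
  have h4 : GG G (h - padicValNat 2 (V - 2)) ≤ GG G h := GG_mono G (by omega)
  have h5 : V - 2 = 2 ^ padicValNat 2 (V - 2) * ((V - 2) / 2 ^ padicValNat 2 (V - 2)) :=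
    (Nat.mul_div_cancel' pow_padicValNat_dvd).symm
  have h6 : 2 ^ padicValNat 2 (V - 2) ≤ 2 ^ h := Nat.pow_le_pow_right (by norm_num) (by omega)
  have h7 : V - 2 ≤ 2 ^ h * GG G h := by
    calc V - 2 = 2 ^ padicValNat 2 (V - 2) * ((V - 2) / 2 ^ padicValNat 2 (V - 2)) := h5
      _ ≤ 2 ^ h * GG G h := Nat.mul_le_mul h6 (h3.trans h4)
  omega

theorem PG3 (G : ℕ → ℕ) (V : ℕ) (hV : 3 ≤ V) : ∃ B, ∀ h, B ≤ h → PG G V h := by
  refine ⟨padicValNat 2 (V - 2) + (V - 2) + 1, ?_⟩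
  intro h hh
  refine ⟨hV, by omega, ?_⟩
  have h1 : (V - 2) / 2 ^ padicValNat 2 (V - 2) ≤ V - 2 := Nat.div_le_self _ _
  have h2 : h - padicValNat 2 (V - 2) < 4 ^ (h - padicValNat 2 (V - 2)) :=
    Nat.lt_pow_self (by norm_num)
  unfold GG
  omega

/-- For every function `G` there is a partition of the positive integers into two classes such
that every infinite sequence whose pairwise sums and pairwise products lie in one class satisfies
strong 2-adic restrictions. -/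
theorem result (G : ℕ → ℕ) : ∃ C : Set ℕ, ∀ a : ℕ → ℕ, StrictMono a → 0 < a 0 →
    ((∀ i j, i < j → a i + a j ∈ C ∧ a i * a j ∈ C) ∨
      (∀ i j, i < j → a i + a j ∉ C ∧ a i * a j ∉ C)) →
    (∀ K, ∀ᶠ i in atTop, K ≤ vv (a i)) ∧
    (∀ᶠ i in atTop, oddPart (a i) ≠ 1) ∧
    (∀ K, ∀ᶠ i in atTop, K ≤ hh (a i)) ∧
    (∀ᶠ i in atTop, 2 ^ hh (a i) ≤ vv (a i)) ∧
    (∀ K, ∀ᶠ i in atTop, padicValNat 2 (vv (a i) - 2) ≤ K → G (hh (a i)) < vv (a i)) := by
  refine ⟨Col (PG G), ?_⟩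
  intro a ha h0 hmono
  have H : ∀ i j, i < j → (a i + a j ∈ Col (PG G) ↔ a i * a j ∈ Col (PG G)) := by
    intro i j hij
    rcases hmono with hm | hm
    · exact ⟨fun _ => (hm i j hij).2, fun _ => (hm i j hij).1⟩
    · exact ⟨fun h => absurd h (hm i j hij).1, fun h => absurd h (hm i j hij).2⟩
  have hpos : ∀ i, a i ≠ 0 := a_pos ha h0
  have h1 := step0 (P := PG G) (PG3 G) ha H
  have h2 := step1 (P := PG G) (fun V h _ => PG1 G V h) hpos h1 H
  have h3 := step2 (P := PG G) (PG2 G) hpos h1 h2 H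
  have h4 := step3 (P := PG G) (PG2 G) hpos h1 h2 h3 H
  have key : ∀ᶠ i in atTop, padicValNat 2 (vv (a i) - 2) < hh (a i) →
      GG G (hh (a i) - padicValNat 2 (vv (a i) - 2)) <
        (vv (a i) - 2) / 2 ^ padicValNat 2 (vv (a i) - 2) := by
    filter_upwards [h4, h2 3] with i hi hi3 hlt
    by_contra hcc
    exact hi ⟨hi3, hlt, by omega⟩
  refine ⟨h2, h1, h3, ?_, ?_⟩
  · filter_upwards [key, h2 3] with i hi hi3
    by_cases hlt : padicValNat 2 (vv (a i) - 2) < hh (a i)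
    · have h5 := hi hlt
      set v := padicValNat 2 (vv (a i) - 2) with hv
      have h6 : 2 ^ v * ((vv (a i) - 2) / 2 ^ v) = vv (a i) - 2 :=
        Nat.mul_div_cancel' pow_padicValNat_dvd
      have h7 : 2 ^ (hh (a i) - v) ≤ GG G (hh (a i) - v) := by
        unfold GG
        have : 2 ^ (hh (a i) - v) ≤ 4 ^ (hh (a i) - v) := Nat.pow_le_pow_left (by norm_num) _
        omega
      have h8 : 2 ^ v * 2 ^ (hh (a i) - v) ≤ 2 ^ v * ((vv (a i) - 2) / 2 ^ v) :=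
        Nat.mul_le_mul_left _ (by omega)
      rw [← pow_add, h6] at h8
      have h9 : v + (hh (a i) - v) = hh (a i) := by omega
      rw [h9] at h8
      omega
    · have h5 : 2 ^ hh (a i) ∣ vv (a i) - 2 :=
        dvd_trans (pow_dvd_pow 2 (not_lt.1 hlt)) pow_padicValNat_dvd
      have := Nat.le_of_dvd (by omega) h5
      omega
  · intro K
    filter_upwards [key, h2 3, h3 (2 * K + 1)] with i hi hi3 hiK hle
    have h5 := hi (by omega)
    have h6 : G (hh (a i)) ≤ GG G (hh (a i) - padicValNat 2 (vv (a i) - 2)) :=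
      le_GG G (by omega)
    have h7 : (vv (a i) - 2) / 2 ^ padicValNat 2 (vv (a i) - 2) ≤ vv (a i) - 2 :=
      Nat.div_le_self _ _
    omega

end Pool.Agent.Results.MP_60922f_co.TwoColours
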